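import Pool.Agent.H72.UV.Defs

/-!
Basic tools: almost everywhere values, products of ultrafilters, isomorphism is an equivalence
relation, local maps.
-/

set_option autoImplicit false

open Set Filter Topology

namespace Pool.Agent.H72.UV

open Pool.Agent.H71 (Fx orb acl)

/-! ### ultrafilters -/

section ultra

variable {X Y C M ι κ : Type}

/-- a function with finite range is almost everywhere constant -/
lemma exists_ae (U : Ultrafilter X) (f : X → C) (hf : (range f).Finite) :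
    ∃ v ∈ range f, ∀ᶠ x in (U : Filter X), f x = v := by
  have h : ∀ᶠ x in (U : Filter X), ∃ v ∈ range f, f x = v :=
    Eventually.of_forall fun x => ⟨f x, mem_range_self x, rfl⟩
  have h2 : (⋃ v ∈ range f, {x | f x = v}) ∈ U := by
    filter_upwards [h] with x hx
    obtain ⟨v, hv, hx⟩ := hx
    exact mem_biUnion hv hx
  rw [Ultrafilter.finite_biUnion_mem_iff hf] at h2
  exact h2

lemma ae_unique {U : Ultrafilter X} {f : X → C} {v w : C} (h : ∀ᶠ x in (U : Filter X), f x = v)
    (h' : ∀ᶠ x in (U : Filter X), f x = w) : v = w := by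
  obtain ⟨x, hx, hx'⟩ := (h.and h').exists
  exact hx.symm.trans hx'

/-- product of ultrafilters: `x` outside, `y` inside -/
noncomputable def prodU (U : Ultrafilter X) (V : Ultrafilter Y) : Ultrafilter (X × Y) :=
  Ultrafilter.bind U fun x => V.map (Prod.mk x)

lemma eventually_bind {U : Ultrafilter X} {V : X → Ultrafilter Y} {P : Y → Prop} :
    (∀ᶠ y in (Ultrafilter.bind U V : Filter Y), P y) ↔
      ∀ᶠ x in (U : Filter X), ∀ᶠ y in (V x : Filter Y), P y := Iff.rfl

lemma eventually_prodU {U : Ultrafilter X} {V : Ultrafilter Y} {P : X × Y → Prop} :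
    (∀ᶠ p in (prodU U V : Filter (X × Y)), P p) ↔
      ∀ᶠ x in (U : Filter X), ∀ᶠ y in (V : Filter Y), P (x, y) := Iff.rfl

lemma eventually_map {U : Ultrafilter X} {f : X → Y} {P : Y → Prop} :
    (∀ᶠ y in (U.map f : Filter Y), P y) ↔ ∀ᶠ x in (U : Filter X), P (f x) := Iff.rfl

/-- product on tuples -/
noncomputable def sumU (U : Ultrafilter (ι → M)) (V : Ultrafilter (κ → M)) :
    Ultrafilter (ι ⊕ κ → M) :=
  (prodU U V).map fun p => Sum.elim p.1 p.2

lemma eventually_sumU {U : Ultrafilter (ι → M)} {V : Ultrafilter (κ → M)}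
    {P : (ι ⊕ κ → M) → Prop} :
    (∀ᶠ p in (sumU U V : Filter (ι ⊕ κ → M)), P p) ↔
      ∀ᶠ u in (U : Filter (ι → M)), ∀ᶠ v in (V : Filter (κ → M)), P (Sum.elim u v) := Iff.rfl

lemma Free.sumU [Finite ι] {U : Ultrafilter (ι → M)} {V : Ultrafilter (κ → M)} (hU : Free U)
    (hV : Free V) : Free (sumU U V) := by
  refine ⟨?_, ?_⟩
  · rintro (i | i) (j | j) hij
    · rw [eventually_sumU]
      filter_upwards [hU.1 i j (fun h => hij (by rw [h]))] with u hu
      exact Eventually.of_forall fun v => hu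
    · rw [eventually_sumU]
      refine Eventually.of_forall fun u => ?_
      filter_upwards [hV.2 j (u i)] with v hv
      exact fun h => hv h.symm
    · rw [eventually_sumU]
      refine Eventually.of_forall fun u => ?_
      filter_upwards [hV.2 i (u j)] with v hv
      exact hv
    · rw [eventually_sumU]
      refine Eventually.of_forall fun u => ?_
      exact hV.1 i j (fun h => hij (by rw [h]))
  · rintro (i | i) y
    · rw [eventually_sumU]
      filter_upwards [hU.2 i y] with u hu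
      exact Eventually.of_forall fun v => hu
    · rw [eventually_sumU]
      exact Eventually.of_forall fun u => hV.2 i y

/-- reindexing along an injective map -/
lemma Free.comp {U : Ultrafilter (ι → M)} (hU : Free U) {ρ : κ → ι} (hρ : Function.Injective ρ) :
    Free (U.map fun u => u ∘ ρ) :=
  ⟨fun i j hij => hU.1 _ _ (fun h => hij (hρ h)), fun i y => hU.2 _ y⟩

lemma FreeOn.comp {ν : Type} {U : Ultrafilter (ν → M)} {S : Set ν} (hU : FreeOn S U) {ρ : κ → ν}
    (hρ : Function.Injective ρ) (hS : ∀ i, ρ i ∈ S) : Free (U.map fun u => u ∘ ρ) :=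
  ⟨fun i j hij => hU.1 _ (hS i) _ (hS j) (fun h => hij (hρ h)), fun i y => hU.2 _ (hS i) y⟩

lemma Free.pure_empty [IsEmpty ι] (u : ι → M) : Free (pure u : Ultrafilter (ι → M)) :=
  ⟨fun i => (IsEmpty.false i).elim, fun i => (IsEmpty.false i).elim⟩

/-- a.e. injective and off a finite set -/
lemma Free.eventually_off [Finite ι] {U : Ultrafilter (ι → M)} (hU : Free U) {F : Set M}
    (hF : F.Finite) : ∀ᶠ u in (U : Filter (ι → M)), Function.Injective u ∧ ∀ i, u i ∉ F := by
  have h1 : ∀ᶠ u in (U : Filter (ι → M)), ∀ i j, i ≠ j → u i ≠ u j := by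
    rw [eventually_all]
    intro i
    rw [eventually_all]
    intro j
    by_cases hij : i = j
    · exact Eventually.of_forall fun u h => absurd hij h
    · filter_upwards [hU.1 i j hij] with u hu
      exact fun _ => hu
  have h2 : ∀ᶠ u in (U : Filter (ι → M)), ∀ i, ∀ y ∈ F, u i ≠ y := by
    rw [eventually_all]
    intro i
    rw [Filter.eventually_all_finite hF]
    exact fun y _ => hU.2 i y
  filter_upwards [h1, h2] with u hu hu2
  exact ⟨fun i j h => by_contra fun hij => hu i j hij h, fun i hi => hu2 i _ hi rfl⟩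

/-- the two directions of `Comm` -/
lemma Comm.iff {c : Str M C} (hc : Comm c) [Finite ι] [Finite κ] {U : Ultrafilter (ι → M)}
    {V : Ultrafilter (κ → M)} (hU : Free U) (hV : Free V) (l : List (M ⊕ (ι ⊕ κ))) (z : C) :
    (∀ᶠ u in (U : Filter (ι → M)), ∀ᶠ v in (V : Filter (κ → M)),
      c (l.map (Sum.elim id (Sum.elim u v))) = z) ↔
    ∀ᶠ v in (V : Filter (κ → M)), ∀ᶠ u in (U : Filter (ι → M)),
      c (l.map (Sum.elim id (Sum.elim u v))) = z := by
  constructor
  · exact hc ι κ inferInstance inferInstance U V hU hV l z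
  · intro h
    have h2 := hc κ ι inferInstance inferInstance V U hV hU
      (l.map (Sum.map id Sum.swap)) z (by
        filter_upwards [h] with v hv
        filter_upwards [hv] with u hu
        rw [← hu, List.map_map]
        congr 2
        funext x
        rcases x with x | x | x <;> rfl)
    filter_upwards [h2] with u hu
    filter_upwards [hu] with v hv
    rw [← hv, List.map_map]
    congr 2
    funext x
    rcases x with x | x | x <;> rfl

/-- for functions of finite range: not a.e. equal to `z` means a.e. equal to another value -/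
lemma exists_ae₂ (U : Ultrafilter X) (V : Ultrafilter Y) (f : X → Y → C) {R : Set C}
    (hR : R.Finite) (hf : ∀ x y, f x y ∈ R) :
    ∃ v ∈ R, ∀ᶠ x in (U : Filter X), ∀ᶠ y in (V : Filter Y), f x y = v := by
  have h1 : ∀ x, ∃ v ∈ R, ∀ᶠ y in (V : Filter Y), f x y = v := by
    intro x
    obtain ⟨v, ⟨y, hy⟩, h⟩ := exists_ae V (f x) (hR.subset (by rintro _ ⟨y, rfl⟩; exact hf x y))
    exact ⟨v, hy ▸ hf x y, h⟩
  choose g hg hg' using h1
  obtain ⟨v, ⟨x, hx⟩, h⟩ := exists_ae U g (hR.subset (by rintro _ ⟨x, rfl⟩; exact hg x))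
  refine ⟨v, hx ▸ hg x, ?_⟩
  filter_upwards [h] with x hx
  rw [← hx]
  exact hg' x

end ultra

/-! ### structures -/

section str

variable {A B M C : Type}

lemma Below.trans {e : Str A C} {d : Str B C} {c : Str M C} (h1 : Below e d) (h2 : Below d c) :
    Below e c := by
  classical
  intro F
  obtain ⟨f, hf, hf2⟩ := h1 F
  obtain ⟨g, hg, hg2⟩ := h2 (F.image f)
  refine ⟨g ∘ f, ?_, ?_⟩
  · rw [Finset.coe_image] at hg
    exact hg.comp hf (mapsTo_image f _)
  · intro l hl
    rw [← List.map_map, hg2, hf2 l hl]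
    intro x hx
    obtain ⟨y, hy, rfl⟩ := List.mem_map.1 hx
    exact Finset.mem_image_of_mem _ (hl y hy)

/-- pulling back along an injective map -/
lemma Below.comap {e : Str B C} {c : Str M C} (h : Below e c) {f : A → B}
    (hf : Function.Injective f) : Below (fun l : List A => e (l.map f)) c := by
  classical
  intro F
  obtain ⟨g, hg, hg2⟩ := h (F.image f)
  refine ⟨g ∘ f, ?_, ?_⟩
  · rw [Finset.coe_image] at hg
    exact hg.comp hf.injOn (mapsTo_image f _)
  · intro l hl
    rw [← List.map_map, hg2]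
    intro x hx
    obtain ⟨y, hy, rfl⟩ := List.mem_map.1 hx
    exact Finset.mem_image_of_mem _ (hl y hy)

lemma below_self_comap {c : Str M C} {f : A → M} (hf : Function.Injective f) :
    Below (fun l : List A => c (l.map f)) c := by
  intro F
  exact ⟨f, hf.injOn, fun l _ => rfl⟩

lemma Iso.refl (c : Str ℕ C) : Iso c c := ⟨1, fun l => by simp⟩

lemma Iso.symm {c d : Str ℕ C} (h : Iso c d) : Iso d c := by
  obtain ⟨g, hg⟩ := h
  refine ⟨g.symm, fun l => ?_⟩
  rw [← hg, List.map_map]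
  congr 1
  conv_rhs => rw [← List.map_id l]
  congr 1
  funext x
  simp

lemma Iso.trans {c d e : Str ℕ C} (h : Iso c d) (h' : Iso d e) : Iso c e := by
  obtain ⟨g, hg⟩ := h
  obtain ⟨g', hg'⟩ := h'
  refine ⟨g' * g, fun l => ?_⟩
  rw [Equiv.Perm.coe_mul, ← List.map_map, hg', hg]

lemma IsoL.refl (m : ℕ) (c : Str ℕ C) : IsoL m c c := ⟨1, fun l _ => by simp⟩

lemma IsoL.symm {m : ℕ} {c d : Str ℕ C} (h : IsoL m c d) : IsoL m d c := by
  obtain ⟨g, hg⟩ := h
  refine ⟨g.symm, fun l hl => ?_⟩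
  rw [← hg _ (by simpa using hl), List.map_map]
  congr 1
  conv_rhs => rw [← List.map_id l]
  congr 1
  funext x
  simp

lemma IsoL.trans {m : ℕ} {c d e : Str ℕ C} (h : IsoL m c d) (h' : IsoL m d e) : IsoL m c e := by
  obtain ⟨g, hg⟩ := h
  obtain ⟨g', hg'⟩ := h'
  refine ⟨g' * g, fun l hl => ?_⟩
  rw [Equiv.Perm.coe_mul, ← List.map_map, hg' _ (by simpa using hl), hg l hl]

lemma Iso.isoL {c d : Str ℕ C} (h : Iso c d) (m : ℕ) : IsoL m c d := by
  obtain ⟨g, hg⟩ := h
  exact ⟨g, fun l _ => hg l⟩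

lemma IsoL.mono {m n : ℕ} {c d : Str ℕ C} (h : IsoL n c d) (hmn : m ≤ n) : IsoL m c d := by
  obtain ⟨g, hg⟩ := h
  exact ⟨g, fun l hl => hg l (hl.trans hmn)⟩

lemma Countably.mono {X Y : Set (Str ℕ C)} (h : X ⊆ Y) (hY : Countably Y) : Countably X := by
  obtain ⟨D, hD, h2⟩ := hY
  exact ⟨D, hD, fun c hc => h2 c (h hc)⟩

lemma Countably.iUnion {ι : Type} [Countable ι] {X : ι → Set (Str ℕ C)}
    (h : ∀ i, Countably (X i)) : Countably (⋃ i, X i) := by
  choose D hD h2 using h
  refine ⟨⋃ i, D i, countable_iUnion hD, fun c hc => ?_⟩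
  obtain ⟨i, hi⟩ := mem_iUnion.1 hc
  obtain ⟨d, hd, hcd⟩ := h2 i c hi
  exact ⟨d, mem_iUnion.2 ⟨i, hd⟩, hcd⟩

lemma tr_of_le {m : ℕ} {c : Str A C} {l : List A} (h : l.length ≤ m) : tr m c l = some (c l) :=
  if_pos h

lemma tr_of_lt {m : ℕ} {c : Str A C} {l : List A} (h : m < l.length) : tr m c l = none :=
  if_neg (not_le.2 h)

/-- automorphisms of the reduct `tr m c` -/
lemma mem_finAut_tr {m : ℕ} {c : Str A C} {g : Equiv.Perm A} :
    g ∈ FinAut (tr m c) ↔ {x | g x ≠ x}.Finite ∧ ∀ l : List A, l.length ≤ m →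
      c (l.map g) = c l := by
  constructor
  · rintro ⟨h1, h2⟩
    refine ⟨h1, fun l hl => ?_⟩
    have := h2 l
    rw [tr_of_le hl, tr_of_le (by simpa using hl)] at this
    exact Option.some.inj this
  · rintro ⟨h1, h2⟩
    refine ⟨h1, fun l => ?_⟩
    by_cases hl : l.length ≤ m
    · rw [tr_of_le hl, tr_of_le (by simpa using hl), h2 l hl]
    · rw [tr_of_lt (not_le.1 hl), tr_of_lt (by simpa using not_le.1 hl)]

lemma finAut_tr_anti {m n : ℕ} (h : m ≤ n) (c : Str A C) : FinAut (tr n c) ≤ FinAut (tr m c) := by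
  intro g hg
  rw [mem_finAut_tr] at hg ⊢
  exact ⟨hg.1, fun l hl => hg.2 l (hl.trans h)⟩

lemma finry_finAut (c : Str A C) : Finry (FinAut c) := fun _ hg => hg.1

end str

/-! ### local maps -/

section loc

variable {G H : Subgroup (Equiv.Perm ℕ)}

lemma Loc.mono {S T : Set ℕ} {f : ℕ → ℕ} (h : Loc G T f) (hST : S ⊆ T) : Loc G S f :=
  fun D hD => h D (hD.trans hST)

lemma Loc.mono_group {S : Set ℕ} {f : ℕ → ℕ} (h : Loc G S f) (hGH : G ≤ H) : Loc H S f :=
  fun D hD => (h D hD).imp fun _ hg => ⟨hGH hg.1, hg.2⟩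

lemma Loc.of_mem {g : Equiv.Perm ℕ} (hg : g ∈ G) (S : Set ℕ) : Loc G S g :=
  fun _ _ => ⟨g, hg, fun _ _ => rfl⟩

lemma Loc.comp {S T : Set ℕ} {f f' : ℕ → ℕ} (h' : Loc G T f') (h : Loc G S f)
    (hST : MapsTo f S T) : Loc G S (f' ∘ f) := by
  classical
  intro D hD
  obtain ⟨g, hg, hg2⟩ := h D hD
  obtain ⟨g', hg', hg2'⟩ := h' (D.image f) (by
    intro y hy
    obtain ⟨x, hx, rfl⟩ := Finset.mem_image.1 (Finset.mem_coe.1 hy)
    exact hST (hD hx))
  refine ⟨g' * g, G.mul_mem hg' hg, fun x hx => ?_⟩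
  rw [Equiv.Perm.mul_apply, ← hg2 x hx, ← hg2' _ (Finset.mem_image_of_mem _ hx)]
  rfl

lemma Loc.symm {q : Equiv.Perm ℕ} (h : Loc G univ q) : Loc G univ q.symm := by
  classical
  intro D _
  obtain ⟨g, hg, hg2⟩ := h (D.image q.symm) (subset_univ _)
  refine ⟨g⁻¹, G.inv_mem hg, fun x hx => ?_⟩
  have := hg2 _ (Finset.mem_image_of_mem _ hx)
  rw [Equiv.apply_symm_apply] at this
  rw [Equiv.Perm.eq_inv_iff_eq]
  exact this.symm

/-- local bijections of `ℕ` preserve the orbits -/
lemma Loc.mem_orb {S : Set ℕ} {f : ℕ → ℕ} (h : Loc G S f) {x : ℕ} (hx : x ∈ S) :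
    f x ∈ orb G ∅ x := by
  obtain ⟨g, hg, hg2⟩ := h {x} (by simpa using hx)
  exact ⟨g, ⟨hg, fun a ha => absurd ha (Finset.notMem_empty a)⟩, (hg2 x (by simp)).symm⟩

lemma mem_orb_empty {x y : ℕ} : y ∈ orb G ∅ x ↔ ∃ g ∈ G, g x = y := by
  constructor
  · rintro ⟨g, hg, rfl⟩
    exact ⟨g, hg.1, rfl⟩
  · rintro ⟨g, hg, rfl⟩
    exact ⟨g, ⟨hg, fun a ha => absurd ha (Finset.notMem_empty a)⟩, rfl⟩

end loc

end Pool.Agent.H72.UV
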