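import Pool.Agent.H72.UV.Defs

/-!
# Targets of the UV modules (MP_5607ba_lc)

Blueprint with complete proofs: team-store `H72_UV_blueprint.md`, board: table `uv_modules`.
-/

set_option autoImplicit false

open Set Filter Topology

namespace Pool.Agent.H72.UV

open Pool.Agent.H71 (Fx orb acl)

/-! ### Part A: descriptive set theory -/

/-- PM: a member `c` of a closed invariant class with `Many c` gives perfectly many classes. -/
def T_PM : Prop :=
  ∀ (C : Type) [TopologicalSpace C] [PolishSpace C] [MeasurableSpace C] [BorelSpace C]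
    (X : Set (Str ℕ C)), IsClosed X → Inv X → ∀ c ∈ X, Many c → Perfectly X

/-- KER: it suffices to treat closures of single isomorphism classes. -/
def T_KER : Prop :=
  ∀ (C : Type) [TopologicalSpace C] [PolishSpace C] [MeasurableSpace C] [BorelSpace C]
    (X : Set (Str ℕ C)), IsClosed X → Inv X → ¬ Perfectly X →
    (∀ c ∈ X, Countably (closure {d | Iso d c})) → Countably X

/-- BR: branches. -/
def T_BR : Prop :=
  ∀ (C : Type) [TopologicalSpace C] [PolishSpace C] [MeasurableSpace C] [BorelSpace C]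
    (X : Set (Str ℕ C)), IsClosed X → ¬ Perfectly X →
    (∀ m, ∃ D : Set (Str ℕ C), D.Countable ∧ ∀ c ∈ X, ∃ d ∈ D, IsoL m c d) →
    (∀ c ∈ X, Countably {d | d ∈ X ∧ ∀ m, IsoL m d c}) → Countably X

/-- HULL: with finitely many types the closure of an isomorphism class is the hull. -/
def T_HULL : Prop :=
  ∀ (C : Type) [TopologicalSpace C] [T1Space C] (c : Str ℕ C), FinTp c →
    ∀ d ∈ closure {d | Iso d c}, Below d c

/-- the theorem for closed classes -/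
def ClosedCase : Prop :=
  ∀ (C : Type) [TopologicalSpace C] [PolishSpace C] [MeasurableSpace C] [BorelSpace C]
    (X : Set (Str ℕ C)), IsClosed X → Inv X → Countably X ∨ Perfectly X

/-- the final theorem -/
def MainStmt : Prop :=
  ∀ (C : Type) [TopologicalSpace C] [PolishSpace C] [MeasurableSpace C] [BorelSpace C]
    (X : Set (Str ℕ C)), (∃ F : ℕ → Set (Str ℕ C), (∀ n, IsClosed (F n)) ∧ X = ⋃ n, F n) →
    Inv X → Countably X ∨ Perfectly X

/-- FS: from closed to `F_σ` classes. -/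
def T_FS : Prop := ClosedCase → MainStmt

/-- EMB: a hull member embeds at level `m` if there are finitely many orbits. -/
def T_EMB : Prop :=
  ∀ (C : Type) (m : ℕ) (c d : Str ℕ C), Olig (FinAut (tr m c)) → Below d c →
    ∃ f : ℕ → ℕ, Function.Injective f ∧ ∀ l : List ℕ, l.length ≤ m → c (l.map f) = d l

/-- LEV: countably many level-`m` isomorphism classes in the hull. -/
def T_LEV : Prop :=
  ∀ (C : Type) (m : ℕ) (c : Str ℕ C), Olig (FinAut (tr m c)) →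
    ∃ D : Set (Str ℕ C), D.Countable ∧ ∀ d, Below d c → ∃ d' ∈ D, IsoL m d d'

/-! ### Part B: finitely many types -/

/-- RAM: the infinite Ramsey theorem for increasing `d`-tuples. -/
def T_RAM : Prop :=
  ∀ (d : ℕ) (K : Type) (_ : Finite K) (col : (Fin d → ℕ) → K), ∃ f : ℕ → ℕ, StrictMono f ∧
    ∃ v, ∀ t : Fin d → ℕ, StrictMono t → col (f ∘ t) = v

/-- A: many types give `Many`. -/
def T_A : Prop := ∀ (M C : Type) (c : Str M C), ¬ Many c → FinTp c

/-- LIFT: structures below a reduct lift to structures below the full structure. -/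
def T_LIFT : Prop :=
  ∀ (M A C : Type) (_ : Countable A) (c : Str M C) (m : ℕ) (e : Str A (Option C)), FinTp c →
    Below e (tr m c) → ∃ e' : Str A C, Below e' c ∧ tr m e' = e

/-- M2M -/
def T_M2M : Prop :=
  ∀ (M C : Type) (c : Str M C) (m : ℕ), FinTp c → Many (tr m c) → Many c

/-! ### Part C: no order -/

/-- EMU: indiscernible sequences from a free ultrafilter. -/
def T_EMU : Prop :=
  ∀ (M C ι : Type) (_ : Finite ι) (c : Str M C) (m : ℕ), (range c).Finite →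
    (∃ v, ∀ l : List M, m < l.length → c l = v) →
    ∀ U : Ultrafilter (ι → M), Free U →
    ∃ e : Str (M ⊕ ℚ × ι) C, (∀ l : List M, e (l.map Sum.inl) = c l) ∧ Below e c ∧ OrdInv e ∧
      ∀ (l : List (M ⊕ ℚ × ι)) (q : ℚ), (∀ j ∈ usedIdx l, q ≤ j) →
        ∀ᶠ u in (U : Filter (ι → M)), e (l.map (subst q u)) = e l

/-- SWAP: adjacent parts of total size below the minimal size of an order configuration can be
exchanged. -/
def T_SWAP : Prop :=
  ∀ (M C : Type) (c : Str M C) (μ : ℕ), (∀ μ' < μ, ¬ OrdCfg c μ') →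
    ∀ (κ ι : Type) (_ : Finite κ) (_ : Finite ι) (e : Str (κ ⊕ ℚ × ι) C), Below e c → OrdInv e →
    ∀ (l : List (κ ⊕ ℚ × ι)) (a b : ℚ), Adj l a b →
      {i | Sum.inr (a, i) ∈ l}.ncard + {i | Sum.inr (b, i) ∈ l}.ncard < μ →
      e (l.map (mapIdx (Equiv.swap a b))) = e l

/-- U1: minimal order configurations in which `P` is never ordered with itself. -/
def T_U1 : Prop :=
  ∀ (M C : Type) (c : Str M C) (μ : ℕ), (∀ μ' < μ, ¬ OrdCfg c μ') →
    ∀ (k p s : ℕ) (e : Str (Fin k ⊕ ℚ × (Fin p ⊕ Fin s)) C), p + s = μ → Below e c → OrdInv e →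
    (∃ l : List (Fin k ⊕ (Fin p ⊕ Fin s)), e (l.map (place 0 1)) ≠ e (l.map (place 1 0))) →
    (∀ (l : List (Fin k ⊕ ℚ × (Fin p ⊕ Fin s))) (a b : ℚ), Adj l a b →
      (∀ i, Sum.inr (a, i) ∈ l → ∃ j, i = Sum.inl j) →
      (∀ i, Sum.inr (b, i) ∈ l → ∃ j, i = Sum.inl j) →
      e (l.map (mapIdx (Equiv.swap a b))) = e l) →
    Many c

/-- U2: minimal order configurations of two copies of the same tuple. -/
def T_U2 : Prop :=
  ∀ (M C : Type) (c : Str M C) (h : ℕ), (∀ μ' < 2 * h, ¬ OrdCfg c μ') →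
    ∀ (k : ℕ) (e : Str (Fin k ⊕ ℚ × Fin h) C), Below e c → OrdInv e →
    (∃ l : List (Fin k ⊕ (Fin h ⊕ Fin h)), e (l.map (place2 0 1)) ≠ e (l.map (place2 1 0))) →
    Many c

/-- OPT: no order configurations. -/
def T_OPT : Prop := ∀ (M C : Type) (c : Str M C), ¬ Many c → ∀ μ, ¬ OrdCfg c μ

/-- COMM: without order configurations iterated limits commute. -/
def T_COMM : Prop :=
  ∀ (M C : Type) (c : Str M C) (m : ℕ), (range c).Finite →
    (∃ v, ∀ l : List M, m < l.length → c l = v) → (∀ μ, ¬ OrdCfg c μ) → Comm c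

/-! ### Part D: no arrays -/

/-- GEN: independent generic copies of a free ultrafilter. -/
def T_GEN : Prop :=
  ∀ (M C ι : Type) (_ : Finite ι) (c : Str M C) (m : ℕ), (range c).Finite →
    (∃ v, ∀ l : List M, m < l.length → c l = v) → Comm c →
    ∀ U : Ultrafilter (ι → M), Free U →
    ∃ e : Str (M ⊕ ℕ × ι) C, (∀ l : List M, e (l.map Sum.inl) = c l) ∧ Below e c ∧
      (∀ (l : List (M ⊕ ℕ × ι)) (n : ℕ), ∀ᶠ u in (U : Filter (ι → M)),
        e (l.map (subst n u)) = e l) ∧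
      (∀ (l : List (M ⊕ ℕ × ι)) (f : ℕ → ℕ), Function.Injective f →
        e (l.map (mapIdx f)) = e l) ∧
      ∀ σ : ℕ → ι → ι, (∀ n, Function.Injective (σ n)) →
        (∀ n, ∀ l : List (M ⊕ ι), ∀ᶠ u in (U : Filter (ι → M)),
          c (l.map (Sum.elim id (u ∘ σ n))) = c (l.map (Sum.elim id u))) →
        ∀ l : List (M ⊕ ℕ × ι),
          e (l.map (Sum.map id fun x : ℕ × ι => (x.1, σ x.1 x.2))) = e l

/-- rows with a `b`-tuple and `r` cells which are `a`-tuples -/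
abbrev Rw (b r a : ℕ) := Fin b ⊕ Fin r × Fin a

/-- the data of rows: `W r` is a free ultrafilter on rows with a `b`-tuple and `r` cells; all cells
look alike, and a cell behaves differently with respect to its own row and to another row -/
def RowData {M C : Type} (c : Str M C) (a : ℕ) : Prop :=
  ∃ (k b : ℕ) (κ : Fin k → M) (W : ∀ r : ℕ, Ultrafilter (Rw b r a → M)),
    Function.Injective κ ∧ (∀ r, Free (W r)) ∧
    (∀ (r r' : ℕ) (ρ : Fin r → Fin r'), Function.Injective ρ → ∀ l : List (M ⊕ Rw b r a),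
      ∀ᶠ u in (W r : Filter (Rw b r a → M)), ∀ᶠ u' in (W r' : Filter (Rw b r' a → M)),
        c (l.map (Sum.elim id u)) =
          c (l.map (Sum.elim id (u' ∘ Sum.map id (Prod.map ρ id))))) ∧
    ∃ (l : List (Fin k ⊕ (Fin b ⊕ Fin a))) (z : C),
      (∀ᶠ u in (W 1 : Filter (Rw b 1 a → M)), c (l.map (Sum.elim κ (Sum.elim
        (fun i => u (Sum.inl i)) (fun i => u (Sum.inr (0, i)))))) ≠ z) ∧
      ∀ᶠ u in (W 1 : Filter (Rw b 1 a → M)),
      ∀ᶠ u' in (W 1 : Filter (Rw b 1 a → M)), c (l.map (Sum.elim κ (Sum.elim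
        (fun i => u (Sum.inl i)) (fun i => u' (Sum.inr (0, i)))))) = z

/-- ROW: infinitely many limit types give row data. -/
def T_ROW : Prop :=
  ∀ (M C : Type) (c : Str M C) (m : ℕ), (range c).Finite →
    (∃ v, ∀ l : List M, m < l.length → c l = v) → Comm c → ¬ FinLim c → ∃ a, RowData c a

/-- ARB: row data give arrays. -/
def T_ARB : Prop :=
  ∀ (M C : Type) (c : Str M C) (m a : ℕ), (range c).Finite →
    (∃ v, ∀ l : List M, m < l.length → c l = v) → Comm c → RowData c a → ArrCfg c a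

/-- the `b`-tuple of row `n` together with `z` -/
def evz {k b a : ℕ} (n : ℕ) (z : Fin a → Arr k b a) : Fin k ⊕ (Fin b ⊕ Fin a) → Arr k b a
  | Sum.inl y => Sum.inl y
  | Sum.inr (Sum.inl i) => Sum.inr (n, Sum.inl i)
  | Sum.inr (Sum.inr i) => z i

/-- OWN: in arrays with minimal `a`, only tuples inside the cells of row `n` feel row `n`. -/
def T_OWN : Prop :=
  ∀ (M C : Type) (c : Str M C) (a : ℕ), (∀ a' < a, ¬ ArrCfg c a') →
    ∀ (k b : ℕ) (e : Str (Arr k b a) C), Below e c → ArrInv e →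
    ∀ (l : List (Fin k ⊕ (Fin b ⊕ Fin a))) (n n' : ℕ) (z : Fin a → Arr k b a), n ≠ n' →
      Function.Injective z → (∀ i y, z i ≠ Sum.inr (n', y)) →
      (∀ i (j : Fin b), z i ≠ Sum.inr (n, Sum.inl j)) →
      e (l.map (evz n z)) ≠ e (l.map (evz n' z)) → ∀ i, ∃ j t, z i = Sum.inr (n, Sum.inr (j, t))

/-- AR: arrays give `Many`. -/
def T_AR : Prop := ∀ (M C : Type) (c : Str M C) (a : ℕ), ArrCfg c a → Many c

/-- FL: finitely many limit types. -/
def T_FL : Prop :=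
  ∀ (M C : Type) (c : Str M C) (m : ℕ), (range c).Finite →
    (∃ v, ∀ l : List M, m < l.length → c l = v) → Comm c → ¬ Many c → FinLim c

/-! ### Part E: the calculus of independence -/

/-- TK: choice of `K`. -/
def T_TK : Prop :=
  ∀ (M C : Type) (c : Str M C) (m : ℕ), (range c).Finite →
    (∃ v, ∀ l : List M, m < l.length → c l = v) → Comm c → FinLim c → ∃ K : Set M, Good m c K

/-- TKT: `TT` implies `KT`, both are equivalence relations depending only on the values on `W`,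
and restrict. -/
def T_TT : Prop :=
  ∀ (M C : Type) (c : Str M C) (K : Set M) (ν : Type) (W : Set ν),
    (∀ x x' : ν → M, TT c K W x x' → KT c K W x x') ∧ (∀ x : ν → M, TT c K W x x) ∧
    (∀ x x' : ν → M, TT c K W x x' → TT c K W x' x) ∧
    (∀ x x' x'' : ν → M, TT c K W x x' → TT c K W x' x'' → TT c K W x x'') ∧
    (∀ x x' y y' : ν → M, (∀ i ∈ W, x i = y i) → (∀ i ∈ W, x' i = y' i) → TT c K W x x' →
      TT c K W y y') ∧
    ∀ (W' : Set ν) (x x' : ν → M), W' ⊆ W → TT c K W x x' → TT c K W' x x'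

/-- CST: `TT`-classes are almost everywhere constant. -/
def T_CST : Prop :=
  ∀ (M C : Type) (c : Str M C) (m : ℕ) (K : Set M), Good m c K →
    ∀ (ν : Type) (W : Set ν), W.Finite → ∀ U : Ultrafilter (ν → M),
      ∀ᶠ u in (U : Filter (ν → M)), ∀ᶠ u' in (U : Filter (ν → M)), TT c K W u u'

open Classical in
/-- EXT: generic extensions of tuples of the same type have the same type. -/
def T_EXT : Prop :=
  ∀ (M C : Type) (c : Str M C) (m : ℕ) (K : Set M), Good m c K →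
    ∀ (ν : Type) (S T : Set ν), S.Finite → T.Finite → Disjoint S T →
    ∀ x x' : ν → M, TT c K T x x' → ∀ U : Ultrafilter (ν → M), FreeOn S U →
      ∀ᶠ u in (U : Filter (ν → M)), TT c K (S ∪ T) (S.piecewise u x) (S.piecewise u x')

open Classical in
/-- L1: generic tuples of the same `K`-type have the same type over any `y`. -/
def T_L1 : Prop :=
  ∀ (M C : Type) (c : Str M C) (m : ℕ) (K : Set M), Good m c K →
    ∀ (ν : Type) (S T : Set ν), S.Finite → T.Finite → Disjoint S T →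
    ∀ U U' : Ultrafilter (ν → M), FreeOn S U → FreeOn S U' →
      (∀ᶠ u in (U : Filter (ν → M)), ∀ᶠ u' in (U' : Filter (ν → M)), KT c K S u u') →
      ∀ y : ν → M, ∀ᶠ u in (U : Filter (ν → M)), ∀ᶠ u' in (U' : Filter (ν → M)),
        TT c K (S ∪ T) (S.piecewise u y) (S.piecewise u' y)

open Classical in
/-- SWP: almost-all quantifiers commute. -/
def T_SWP : Prop :=
  ∀ (M C : Type) (c : Str M C) (m : ℕ) (K : Set M), Good m c K →
    ∀ (ν : Type) (S T W : Set ν), S.Finite → T.Finite → W.Finite → Disjoint S T → Disjoint S W →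
      Disjoint T W → ∀ U V : Ultrafilter (ν → M), FreeOn S U → FreeOn T V → ∀ x y : ν → M,
      (∀ᶠ u in (U : Filter (ν → M)), ∀ᶠ v in (V : Filter (ν → M)),
        TT c K (S ∪ T ∪ W) x (S.piecewise u (T.piecewise v y))) →
      ∀ᶠ v in (V : Filter (ν → M)), ∀ᶠ u in (U : Filter (ν → M)),
        TT c K (S ∪ T ∪ W) x (S.piecewise u (T.piecewise v y))

/-- RI: reindexing. -/
def T_RI : Prop :=
  ∀ (M C : Type) (c : Str M C) (K : Set M) (ν ν' : Type) (ρ : ν → ν') (S T : Set ν),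
    InjOn ρ (S ∪ T) → Disjoint S T → ∀ x x' : ν' → M,
    (TT c K (ρ '' S) x x' ↔ TT c K S (x ∘ ρ) (x' ∘ ρ)) ∧
    (Ind c K x (ρ '' S) (ρ '' T) ↔ Ind c K (x ∘ ρ) S T)

/-- the laws of independence -/
structure Calc {M C : Type} (c : Str M C) (K : Set M) : Prop where
  res : ∀ (ν : Type) (x : ν → M) (S T S' T' : Set ν), Disjoint S T → S' ⊆ S → T' ⊆ T →
    Ind c K x S T → Ind c K x S' T'
  inv : ∀ (ν : Type) (x x' : ν → M) (S T : Set ν), S.Finite → T.Finite → Disjoint S T →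
    TT c K (S ∪ T) x x' → Ind c K x S T → Ind c K x' S T
  i3 : ∀ (ν : Type) (x : ν → M) (S T W : Set ν), S.Finite → T.Finite → W.Finite →
    Disjoint S T → Disjoint S W → Disjoint T W →
    Ind c K x S (T ∪ W) → Ind c K x T W → Ind c K x (S ∪ T) W
  i4 : ∀ (ν : Type) (x : ν → M) (S T W : Set ν), S.Finite → T.Finite → W.Finite →
    Disjoint S T → Disjoint S W → Disjoint T W →
    Ind c K x (S ∪ T) W → Ind c K x S T → Ind c K x S (T ∪ W)
  i5 : ∀ (ν : Type) (x : ν → M) (S T W : Set ν), S.Finite → T.Finite → W.Finite →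
    Disjoint S T → Disjoint S W → Disjoint T W →
    Ind c K x T (S ∪ W) → Ind c K x S W → Ind c K x S (T ∪ W)
  un : ∀ (ν : Type) (x x' : ν → M) (S T : Set ν), S.Finite → T.Finite → Disjoint S T →
    Ind c K x S T → Ind c K x' S T → TT c K S x x' → TT c K T x x' → TT c K (S ∪ T) x x'

/-- CALC -/
def T_CALC : Prop :=
  ∀ (M C : Type) (c : Str M C) (m : ℕ) (K : Set M), Good m c K → Calc c K

/-! ### Part F: the hypergraph -/

/-- LOCF: local finiteness. -/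
def T_LOCF : Prop :=
  ∀ (M C : Type) (c : Str M C) (m : ℕ) (K : Set M), Good m c K →
    ∀ x : M, {W | W ∈ Edges m c K ∧ x ∈ W}.Finite

/-- OUT: all tuples outside a finite set are generic. -/
def T_OUT : Prop :=
  ∀ (M C : Type) (c : Str M C) (m : ℕ) (K : Set M), Good m c K →
    ∃ F : Set M, F.Finite ∧ Outer m c K F

/-- HYP: large connected sets far apart in a locally finite hypergraph. -/
def T_HYP : Prop :=
  ∀ (V : Type) (E : Set (Finset V)) (m : ℕ), (∀ W ∈ E, W.card ≤ m) →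
    (∀ x : V, {W | W ∈ E ∧ x ∈ W}.Finite) → (∀ N : ℕ, ∃ D : Finset V, Conn E D ∧ N ≤ D.card) →
    ∀ s : ℕ → ℕ, (∀ n, 0 < s n) → ∃ T : ℕ → Finset V,
      (∀ n, Conn E (T n) ∧ s n ≤ (T n).card ∧ (T n).card ≤ s n + m) ∧
      (∀ n n', n ≠ n' → Disjoint (T n) (T n')) ∧
      ∀ W ∈ E, ∀ n n', n ≠ n' → (∃ x ∈ W, x ∈ T n) → ∀ x ∈ W, x ∉ T n'

/-- CASE1: unbounded connected sets give `Many`. -/
def T_CASE1 : Prop :=
  ∀ (M C : Type) (c : Str M C) (m : ℕ) (K F : Set M), Good m c K → F.Finite →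
    Outer m c K F →
    (∀ N : ℕ, ∃ D : Finset M, Conn {W | W ∈ Edges m c K ∧ ∀ x ∈ W, x ∉ F} D ∧ N ≤ D.card) →
    Many c

/-- HYP2: bounded connected sets give a partition into cells. -/
def T_HYP2 : Prop :=
  ∀ (V : Type) (E : Set (Finset V)), (∀ x : V, {W | W ∈ E ∧ x ∈ W}.Finite) →
    ∀ (F : Set V), F.Finite → ∀ β : ℕ,
    (∀ D : Finset V, Conn {W | W ∈ E ∧ ∀ x ∈ W, x ∉ F} D → D.card ≤ β) →
    ∃ (Ω : Set V) (cl : V → Finset V), Ω.Finite ∧ F ⊆ Ω ∧ ∀ x ∉ Ω, x ∈ cl x ∧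
      (cl x).card ≤ β ∧ (∀ y ∈ cl x, y ∉ Ω ∧ cl y = cl x) ∧
      ∀ W ∈ E, (∃ y ∈ W, y ∈ cl x) → W ⊆ cl x

/-- CMP: sets closed under edges are independent from everything else. -/
def T_CMP : Prop :=
  ∀ (M C : Type) (c : Str M C) (m : ℕ) (K F : Set M), Good m c K → Outer m c K F →
    ∀ Z : Set M, Disjoint Z (K ∪ F) →
    (∀ W ∈ Edges m c K, (∃ x ∈ W, x ∈ Z) → ∀ x ∈ W, x ∈ Z) →
    ∀ A B : Set M, A.Finite → B.Finite → A ⊆ Z → Disjoint B Z → Disjoint B K →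
      A.ncard + B.ncard ≤ m → Ind c K (id : M → M) A B

/-- EXCH: exchanging two cells of the same type is an automorphism. -/
def T_EXCH : Prop :=
  ∀ (M C : Type) (c : Str M C) (m : ℕ) (K F : Set M), Good m c K → Outer m c K F →
    ∀ (Z : Set M) (σ : Equiv.Perm M), Z.Finite → Disjoint Z (K ∪ F) → Disjoint (σ '' Z) (K ∪ F) →
    Disjoint Z (σ '' Z) →
    (∀ W ∈ Edges m c K, (∃ x ∈ W, x ∈ Z) → ∀ x ∈ W, x ∈ Z) →
    (∀ W ∈ Edges m c K, (∃ x ∈ W, x ∈ σ '' Z) → ∀ x ∈ W, x ∈ σ '' Z) →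
    (∀ x, σ (σ x) = x) → (∀ x, x ∉ Z → x ∉ σ '' Z → σ x = x) → TT c K Z (id : M → M) σ →
    ∀ l : List M, c (l.map σ) = c l

/-- ORB: finitely many orbits of the finitary automorphism group. -/
def T_ORB : Prop :=
  ∀ (M C : Type) (c : Str M C) (m : ℕ) (K F : Set M), Good m c K → Outer m c K F →
    ∀ (Ω : Set M) (cl : M → Finset M) (β : ℕ), Ω.Finite → F ∪ K ⊆ Ω →
    (∀ x ∉ Ω, x ∈ cl x ∧ (cl x).card ≤ β ∧ (∀ y ∈ cl x, y ∉ Ω ∧ cl y = cl x) ∧
      ∀ W ∈ Edges m c K, (∃ y ∈ W, y ∈ cl x) → W ⊆ cl x) → Olig (FinAut c)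

/-- ST1: stage one. -/
def T_ST1 : Prop :=
  ∀ (M C : Type) (c : Str M C) (m : ℕ), ¬ Many c → FinTp c → Olig (FinAut (tr m c))

/-! ### Part G: groups of finitary permutations -/

/-- GRP: acl in oligomorphic groups of finitary permutations. -/
def T_GRP : Prop :=
  ∀ G : Subgroup (Equiv.Perm ℕ), Finry G → Olig G → Cell G

/-- CORE -/
def T_CORE : Prop :=
  ∀ G : Subgroup (Equiv.Perm ℕ), Finry G → Olig G →
    Olig (core G) ∧ Reduced (core G) ∧ ∀ F : Finset ℕ, acl (core G) F = acl G F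

/-- CELL: piecing together. -/
def T_CELL : Prop :=
  ∀ G : Subgroup (Equiv.Perm ℕ), Finry G → Olig G → Reduced G →
    ∀ (D : Finset ℕ) (f : ℕ → ℕ), InjOn f D → (∀ x ∈ D, x ∉ acl G ∅ → cell G x ⊆ D) →
    (∀ x ∈ D, x ∈ acl G ∅ → f x = x) →
    (∀ x ∈ D, x ∉ acl G ∅ → ∃ g ∈ G, ∀ y ∈ cell G x, f y = g y) → ∃ g ∈ G, ∀ y ∈ D, f y = g y

/-- LOCP: piecing together on infinite sets: `S` is a union of cells. -/
def T_LOCP : Prop :=
  ∀ G : Subgroup (Equiv.Perm ℕ), Finry G → Olig G → Reduced G →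
    ∀ (S : Set ℕ) (f : ℕ → ℕ), InjOn f S → (∀ x ∈ S, x ∉ acl G ∅ → cell G x ⊆ S) →
    (∀ x ∈ S, x ∈ acl G ∅ → f x = x) →
    (∀ x ∈ S, x ∉ acl G ∅ → ∃ g ∈ G, ∀ y ∈ cell G x, f y = g y) → Loc G S f

/-- TOW: elementary facts on towers. -/
def T_TOW : Prop :=
  ∀ G : ℕ → Subgroup (Equiv.Perm ℕ), Tower G →
    (∀ m n, m ≤ n → G n ≤ G m) ∧
    (∀ m n, m ≤ n → acl (G m) ∅ ⊆ acl (G n) ∅) ∧
    (∀ m n x, m ≤ n → x ∉ acl (G n) ∅ → cell (G m) x ⊆ cell (G n) x) ∧
    (∀ m x, x ∈ Kinf G → x ∉ acl (G m) ∅ → cell (G m) x ⊆ Kinf G) ∧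
    (∀ x, x ∉ Kinf G → x ∈ comp G x ∧ Disjoint (comp G x) (Kinf G) ∧
      ∀ y ∈ comp G x, comp G y = comp G x) ∧
    (∀ m n x, m ≤ n → orb (G n) ∅ x ⊆ orb (G m) ∅ x) ∧
    ∀ m x, x ∉ acl (G m) ∅ → (orb (G m) ∅ x).Infinite

/-- TOWN: the tower of a structure. -/
def T_TOWN : Prop :=
  ∀ (C : Type) (c : Str ℕ C), (∀ m, Olig (FinAut (tr m c))) →
    Tower fun m => core (FinAut (tr m c))

/-- TOWC: conjugated towers. -/
def T_TOWC : Prop :=
  ∀ (G : ℕ → Subgroup (Equiv.Perm ℕ)) (p : ℕ → Equiv.Perm ℕ), Tower G → Thread G p →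
    Tower (cj G p) ∧ (∀ m x y, y ∈ orb (cj G p m) ∅ x ↔ p m y ∈ orb (G m) ∅ (p m x)) ∧
    (∀ m x, x ∈ acl (cj G p m) ∅ ↔ p m x ∈ acl (G m) ∅) ∧
    (∀ m x y, y ∈ cell (cj G p m) x ↔ p m y ∈ cell (G m) (p m x)) ∧
    ∀ m n, m ≤ n → Loc (G m) univ (fun x => p m ((p n).symm x)) ∧
      Loc (G m) univ (fun x => p n ((p m).symm x))

/-- SUB: substructures with infinitely many cells of each kind. -/
def T_SUB : Prop :=
  ∀ G : ℕ → Subgroup (Equiv.Perm ℕ), Tower G → ∀ B : Set ℕ, Kinf G ⊆ B →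
    (∀ x ∈ B, x ∉ Kinf G → comp G x ⊆ B) →
    (∀ m x, x ∉ acl (G m) ∅ → (orb (G m) ∅ x ∩ B).Infinite) →
    ∀ m, ∃ f : ℕ → ℕ, BijOn f B univ ∧ Loc (G m) B f

/-- BASE: substructures containing all tame points and one component of each wild type. -/
def T_BASE : Prop :=
  ∀ G : ℕ → Subgroup (Equiv.Perm ℕ), Tower G → ∀ B : Set ℕ, Kinf G ⊆ B →
    (∀ x ∈ B, x ∉ Kinf G → comp G x ⊆ B) → (∀ x, Tame G x → x ∈ B) →
    (∀ x, Wild G x → ∃ y ∈ B, Seq G x y) →
    ∀ m x, x ∉ acl (G m) ∅ → (orb (G m) ∅ x ∩ B).Infinite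

/-- ISO: isomorphisms between such substructures respect the tower. -/
def T_ISO : Prop :=
  ∀ (C : Type) (c : Str ℕ C), (∀ m, Olig (FinAut (tr m c))) →
    ∀ B B' : Set ℕ,
    (∀ m, ∃ f : ℕ → ℕ, BijOn f B univ ∧ Loc (core (FinAut (tr m c))) B f) →
    (∀ m, ∃ f : ℕ → ℕ, BijOn f B' univ ∧ Loc (core (FinAut (tr m c))) B' f) →
    ∀ φ : ℕ → ℕ, IsIso c φ B B' →
    (∀ x ∈ B, x ∈ Kinf (fun m => core (FinAut (tr m c))) ↔
      φ x ∈ Kinf (fun m => core (FinAut (tr m c)))) ∧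
    (∀ x ∈ B, ∀ y ∈ B, (Seq (fun m => core (FinAut (tr m c))) x y ↔
      Seq (fun m => core (FinAut (tr m c))) (φ x) (φ y))) ∧
    ∀ x ∈ B, ∀ y ∈ B, x ∉ Kinf (fun m => core (FinAut (tr m c))) →
      (y ∈ comp (fun m => core (FinAut (tr m c))) x ↔
        φ y ∈ comp (fun m => core (FinAut (tr m c))) (φ x))

/-- DEC: infinitely many wild types of infinite dimension give `Many`. -/
def T_DEC : Prop :=
  ∀ (C : Type) (c : Str ℕ C), (∀ m, Olig (FinAut (tr m c))) →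
    ∀ G : ℕ → Subgroup (Equiv.Perm ℕ), (G = fun m => core (FinAut (tr m c))) →
    ∀ x : ℕ → ℕ, (∀ n, Wild G (x n)) → (∀ i j, i ≠ j → ∀ y ∈ comp G (x i), ¬ Seq G (x j) y) →
    ∀ y : ℕ → ℕ → ℕ, (∀ n k, Seq G (x n) (y n k)) →
      (∀ n k k', k ≠ k' → y n k' ∉ comp G (y n k)) → Many c

/-- FRAME: structures with the same reducts come from threads. -/
def T_FRAME : Prop :=
  ∀ (C : Type) (c d : Str ℕ C), (∀ m, Olig (FinAut (tr m c))) → (∀ m, IsoL m d c) →
    ∃ p : ℕ → Equiv.Perm ℕ, Thread (fun m => core (FinAut (tr m c))) p ∧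
      ∀ (m : ℕ) (l : List ℕ), l.length ≤ m → c (l.map (p m)) = d l

/-- MATCH: components of the same strong type are isomorphic. -/
def T_MATCH : Prop :=
  ∀ G : ℕ → Subgroup (Equiv.Perm ℕ), Tower G → ∀ p p' : ℕ → Equiv.Perm ℕ, Thread G p →
    Thread G p' → ∀ x x' : ℕ, x ∉ Kinf (cj G p) → SeqT G p p' x x' →
    ∃ f : ℕ → ℕ, f x = x' ∧ Mat G p p' (comp (cj G p) x) (comp (cj G p') x') f

/-- KMAT: the algebraic parts are isomorphic. -/
def T_KMAT : Prop :=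
  ∀ G : ℕ → Subgroup (Equiv.Perm ℕ), Tower G → ∀ p p' : ℕ → Equiv.Perm ℕ, Thread G p →
    Thread G p' → ∃ f : ℕ → ℕ, Mat G p p' (Kinf (cj G p)) (Kinf (cj G p')) f

/-- TAM: tameness depends only on the strong type, and tame types are realised in infinitely many
components of every thread. -/
def T_TAM : Prop :=
  ∀ G : ℕ → Subgroup (Equiv.Perm ℕ), Tower G → ∀ p p' : ℕ → Equiv.Perm ℕ, Thread G p →
    Thread G p' →
    (∀ x x' : ℕ, SeqT G p p' x x' → (Tame (cj G p) x ↔ Tame (cj G p') x')) ∧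
    ∀ x, Tame (cj G p) x → ∃ y : ℕ → ℕ, (∀ k, SeqT G p p' x (y k)) ∧
      ∀ k k', k ≠ k' → y k' ∉ comp (cj G p') (y k)

/-- REAL: realising countably many strong types independently. -/
def T_REAL : Prop :=
  ∀ G : ℕ → Subgroup (Equiv.Perm ℕ), Tower G → ∀ θ : ℕ → ℕ → Set ℕ,
    (∀ j m, ∃ a, a ∉ acl (G m) ∅ ∧ θ j m = orb (G m) ∅ a) → (∀ j m, θ j (m + 1) ⊆ θ j m) →
    ∃ p : ℕ → Equiv.Perm ℕ, Thread G p ∧ ∃ x : ℕ → ℕ, (∀ j m, p m (x j) ∈ θ j m) ∧
      ∀ i j m, i ≠ j → p m (x i) ∉ cell (G m) (p m (x j))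

/-- CNT: finitely many wild types give countably many threads up to isomorphism. -/
def T_CNT : Prop :=
  ∀ G : ℕ → Subgroup (Equiv.Perm ℕ), Tower G →
    (¬ ∃ (p : ℕ → ℕ → Equiv.Perm ℕ) (x : ℕ → ℕ), (∀ j, Thread G (p j)) ∧
      (∀ j, Wild (cj G (p j)) (x j)) ∧
      ∀ i j, i ≠ j → ∀ y ∈ comp (cj G (p i)) (x i), ¬ SeqT G (p j) (p i) (x j) y) →
    ∃ D : Set (ℕ → Equiv.Perm ℕ), D.Countable ∧ ∀ p, Thread G p → ∃ p' ∈ D, Thread G p' ∧
      ∃ f : ℕ → ℕ, Mat G p p' univ univ f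

/-- ST2: stage two. -/
def T_ST2 : Prop :=
  ∀ (C : Type) (c : Str ℕ C), (∀ m, Olig (FinAut (tr m c))) →
    (∀ d : Str ℕ C, (∀ m, IsoL m d c) → ¬ Many d) → Countably {d | ∀ m, IsoL m d c}

/-! ### assemblies -/

/-- assembly of the closed case -/
def T_ASM : Prop :=
  T_PM → T_KER → T_BR → T_HULL → T_LEV → T_A → T_ST1 → T_ST2 → ClosedCase

end Pool.Agent.H72.UV
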