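import Pool.Agent.H72.UV.Targets
import Pool.Agent.H72.UV.Basic

/-!
Modules M2M, FL and ST1.
-/

set_option autoImplicit false

open Set Filter Topology

namespace Pool.Agent.H72.UV

lemma IsIso.tr {A C : Type} {e : Str A C} {f : A → A} {S T : Set A} (h : IsIso e f S T) (m : ℕ) :
    IsIso (tr m e) f S T := by
  refine ⟨h.1, fun l hl => ?_⟩
  by_cases hm : l.length ≤ m
  · rw [tr_of_le hm, tr_of_le (by simpa using hm), h.2 l hl]
  · rw [tr_of_lt (not_le.1 hm), tr_of_lt (by simpa using not_le.1 hm)]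

theorem m2m (hLIFT : T_LIFT) : T_M2M := by
  rintro M C c m hc ⟨A, hA, e, K, B, h1, h2, h3, h4, h5⟩
  obtain ⟨e', he', he''⟩ := hLIFT M A C hA c m e hc h1
  refine ⟨A, hA, e', K, B, he', h2, h3, h4, fun x => (h5 x).mono ?_⟩
  rintro y ⟨f, hf, hf2⟩
  refine ⟨f, ?_, hf2⟩
  rw [← he'']
  exact hf.tr m

theorem fl (hROW : T_ROW) (hARB : T_ARB) (hAR : T_AR) : T_FL := by
  intro M C c m h1 h2 h3 h4
  by_contra h
  obtain ⟨a, ha⟩ := hROW M C c m h1 h2 h3 h
  exact h4 (hAR M C c a (hARB M C c m a h1 h2 h3 ha))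

/-- `Conn` only depends on the edges contained in the set -/
lemma Conn.congr {V : Type} {E E' : Set (Finset V)} {D : Finset V} (h : Conn E D)
    (hE : ∀ W ∈ E, W ⊆ D → W ∈ E') : Conn E' D := by
  refine ⟨h.1, fun S hS hS' => ?_⟩
  obtain ⟨W, hW, hWD, h3⟩ := h.2 S hS hS'
  exact ⟨W, hE W hW hWD, hWD, h3⟩

theorem st1 (hM2M : T_M2M) (hOPT : T_OPT) (hCOMM : T_COMM) (hFL : T_FL) (hTK : T_TK)
    (hLOCF : T_LOCF) (hOUT : T_OUT) (hCASE1 : T_CASE1) (hHYP2 : T_HYP2) (hORB : T_ORB) :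
    T_ST1 := by
  intro M C c m hc hfin
  have hc' : ¬ Many (tr m c) := fun h => hc (hM2M M C c m hfin h)
  have hr : (range (tr m c)).Finite := by
    have h1 : (range (tr m c)) ⊆ {none} ∪ ⋃ n ∈ Finset.range (m + 1),
        (fun t : List (Fin n) → C => some (t (List.finRange n))) ''
          (range fun x : Fin n → M => fun l : List (Fin n) => c (l.map x)) := by
      rintro _ ⟨l, rfl⟩
      by_cases hl : l.length ≤ m
      · right
        rw [tr_of_le hl]
        refine mem_biUnion (x := l.length) (by simpa using Nat.lt_succ_of_le hl) ?_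
        refine ⟨_, ⟨l.get, rfl⟩, ?_⟩
        simp
      · left
        rw [tr_of_lt (not_le.1 hl)]
        rfl
    refine Set.Finite.subset ?_ h1
    refine (finite_singleton _).union ?_
    exact (Finset.range (m + 1)).finite_toSet.biUnion fun n _ => (hfin n).image _
  have har : ∃ v, ∀ l : List M, m < l.length → tr m c l = v := ⟨none, fun l hl => tr_of_lt hl⟩
  have hcomm := hCOMM M (Option C) (tr m c) m hr har (hOPT M (Option C) (tr m c) hc')
  have hlim := hFL M (Option C) (tr m c) m hr har hcomm hc'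
  obtain ⟨K, hK⟩ := hTK M (Option C) (tr m c) m hr har hcomm hlim
  obtain ⟨F, hF, hO⟩ := hOUT M (Option C) (tr m c) m K hK
  have hbd : ∃ β : ℕ, ∀ D : Finset M,
      Conn {W | W ∈ Edges m (tr m c) K ∧ ∀ x ∈ W, x ∉ F} D → D.card ≤ β := by
    by_contra h
    push Not at h
    refine hc' (hCASE1 M (Option C) (tr m c) m K F hK hF hO fun N => ?_)
    obtain ⟨D, hD, hD2⟩ := h N
    exact ⟨D, hD, hD2.le⟩
  obtain ⟨β, hβ⟩ := hbd
  obtain ⟨Ω, cl, h1, h2, h3⟩ := hHYP2 M (Edges m (tr m c) K) (hLOCF M (Option C) (tr m c) m K hK)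
    (F ∪ K) (hF.union hK.finK) β (fun D hD => hβ D (hD.congr (by
      rintro W ⟨hW, hW2⟩ _
      exact ⟨hW, fun x hx hxF => hW2 x hx (Or.inl hxF)⟩)))
  exact hORB M (Option C) (tr m c) m K F hK hO Ω cl β h1 h2 h3

end Pool.Agent.H72.UV
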