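import Pool.Agent.H72.UV.Targets

/-!
# From `F_σ` sets to countable unions of countable intersections of finitely supported Borel sets

Let `C` be a standard Borel space.  If the dichotomy holds for the `F_σ` invariant sets of
structures, then it holds for all invariant sets of the form `⋃ n, ⋂ j, A n j` where every `A n j`
is a Borel set that depends only on the restriction of the structure to a finite set.
-/

set_option autoImplicit false

open Set Filter Topology MeasureTheory

namespace Pool.Agent.H72.UV

/-- membership in `A` depends only on the restriction of the structure to a finite set -/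
def FinDep {C : Type} (A : Set (Str ℕ C)) : Prop :=
  ∃ F : Finset ℕ, ∀ c d : Str ℕ C, (∀ l : List ℕ, (∀ x ∈ l, x ∈ F) → c l = d l) →
    (c ∈ A ↔ d ∈ A)

/-- the dichotomy for countable unions of countable intersections of finitely supported Borel
sets -/
def SigmaStmt : Prop :=
  ∀ (C : Type) [MeasurableSpace C] [StandardBorelSpace C] (X : Set (Str ℕ C)),
    (∃ A : ℕ → ℕ → Set (Str ℕ C), (∀ n j, MeasurableSet (A n j) ∧ FinDep (A n j)) ∧
      X = ⋃ n, ⋂ j, A n j) → Inv X → Countably X ∨ Perfectly X

/-- the entries of `l` at the places listed in `s` -/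
def pick (l s : List ℕ) : List ℕ := s.filterMap fun i => l[i]?

lemma pick_map (g : ℕ → ℕ) (l s : List ℕ) : pick (l.map g) s = (pick l s).map g := by
  unfold pick
  rw [List.map_filterMap]
  refine List.filterMap_congr fun i _ => ?_
  rw [List.getElem?_map]

lemma pick_range (l : List ℕ) : pick l (List.range l.length) = l := by
  unfold pick
  induction l using List.reverseRecOn with
  | nil => rfl
  | append_singleton l a ih =>
    rw [List.length_append, List.length_singleton, List.range_succ, List.filterMap_append]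
    have h1 : (List.range l.length).filterMap (fun i => (l ++ [a])[i]?) =
        (List.range l.length).filterMap fun i => l[i]? := by
      refine List.filterMap_congr fun i hi => ?_
      rw [List.getElem?_append_left (List.mem_range.1 hi)]
    rw [h1, ih]
    simp

lemma exists_pick {l t : List ℕ} (h : ∀ x ∈ t, x ∈ l) : ∃ s, pick l s = t := by
  refine ⟨t.map fun x => l.idxOf x, ?_⟩
  unfold pick
  rw [List.filterMap_map]
  have h1 : t.filterMap ((fun i => l[i]?) ∘ fun x => l.idxOf x) = t.filterMap some := by
    refine List.filterMap_congr fun x hx => ?_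
    have h2 := List.idxOf_lt_length_iff.2 (h x hx)
    simp only [Function.comp_apply]
    rw [List.getElem?_eq_getElem h2, List.getElem_idxOf]
  rw [h1]
  simp

variable {C : Type}

/-- the structure with values in `List ℕ → C` that lists all values on the entries of a list -/
def Phi (c : Str ℕ C) : Str ℕ (List ℕ → C) := fun l s => c (pick l s)

/-- coherent structures -/
def Coh (C : Type) : Set (Str ℕ (List ℕ → C)) :=
  {e | ∀ l s l' s', pick l s = pick l' s' → e l s = e l' s'}

/-- the structure described by a coherent structure -/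
def Psi (e : Str ℕ (List ℕ → C)) : Str ℕ C := fun l => e l (List.range l.length)

lemma Phi_coh (c : Str ℕ C) : Phi c ∈ Coh C := fun l s l' s' h => by
  unfold Phi
  rw [h]

lemma Psi_Phi (c : Str ℕ C) : Psi (Phi c) = c := by
  funext l
  unfold Psi Phi
  rw [pick_range]

lemma Phi_Psi {e : Str ℕ (List ℕ → C)} (he : e ∈ Coh C) : Phi (Psi e) = e := by
  funext l s
  unfold Psi Phi
  exact he _ _ _ _ (pick_range _)

lemma Phi_rel (c : Str ℕ C) (g : ℕ → ℕ) :
    Phi (fun l : List ℕ => c (l.map g)) = fun l : List ℕ => Phi c (l.map g) := by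
  funext l s
  unfold Phi
  rw [pick_map]

lemma Psi_rel (e : Str ℕ (List ℕ → C)) (g : ℕ → ℕ) :
    Psi (fun l : List ℕ => e (l.map g)) = fun l : List ℕ => Psi e (l.map g) := by
  funext l
  unfold Psi
  rw [List.length_map]

/-- read off the values at the lists over the entries of `l` -/
noncomputable def rho (l : List ℕ) (u : List ℕ → C) : Str ℕ C := fun t =>
  open scoped Classical in if h : ∃ s, pick l s = t then u h.choose else u []

lemma rho_Phi (c : Str ℕ C) {l t : List ℕ} (h : ∀ x ∈ t, x ∈ l) : rho l (Phi c l) t = c t := by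
  have h1 := exists_pick h
  unfold rho
  rw [dif_pos h1]
  unfold Phi
  rw [h1.choose_spec]

lemma measurable_rho [MeasurableSpace C] (l : List ℕ) :
    Measurable (rho l : (List ℕ → C) → Str ℕ C) := by
  refine measurable_pi_lambda _ fun t => ?_
  unfold rho
  by_cases h : ∃ s, pick l s = t
  · simp only [dif_pos h]
    exact measurable_pi_apply _
  · simp only [dif_neg h]
    exact measurable_pi_apply _

lemma sigma_aux (hM : MainStmt) [MeasurableSpace C] [TopologicalSpace C] [T2Space C] (C' : Type)
    [TopologicalSpace C'] [PolishSpace C'] [MeasurableSpace C'] [BorelSpace C']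
    (φ : C' → List ℕ → C) (ψ : (List ℕ → C) → C') (h1 : ∀ u, φ (ψ u) = u) (h2 : ∀ v, ψ (φ v) = v)
    (hφc : ∀ s, Continuous fun v => φ v s) (hφm : ∀ s, Measurable fun v => φ v s)
    (X : Set (Str ℕ C)) (hInv : Inv X) (L : ℕ → ℕ → List ℕ) (E : ℕ → ℕ → Set (List ℕ → C))
    (hE : ∀ n j, IsClosed {v | φ v ∈ E n j})
    (hX : ∀ c, c ∈ X ↔ ∃ n, ∀ j, Phi c (L n j) ∈ E n j) : Countably X ∨ Perfectly X := by
  let X' : Set (Str ℕ C') := {e | (fun l => φ (e l)) ∈ Coh C ∧ Psi (fun l => φ (e l)) ∈ X}
  let F : ℕ → Set (Str ℕ C') := fun n =>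
    {e | (fun l => φ (e l)) ∈ Coh C} ∩ ⋂ j, {e | φ (e (L n j)) ∈ E n j}
  have hX' : X' = ⋃ n, F n := by
    ext e
    simp only [X', F, mem_setOf_eq, mem_iUnion, mem_inter_iff, mem_iInter]
    constructor
    · rintro ⟨he, h⟩
      obtain ⟨n, hn⟩ := (hX _).1 h
      rw [Phi_Psi he] at hn
      exact ⟨n, he, hn⟩
    · rintro ⟨n, he, hn⟩
      refine ⟨he, (hX _).2 ⟨n, ?_⟩⟩
      rw [Phi_Psi he]
      exact hn
  have hFc : ∀ n, IsClosed (F n) := by
    intro n
    refine IsClosed.inter ?_ (isClosed_iInter fun j =>
      (hE n j).preimage (continuous_apply (L n j) : Continuous fun e : Str ℕ C' => e (L n j)))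
    have : {e : Str ℕ C' | (fun l => φ (e l)) ∈ Coh C} =
        ⋂ (l : List ℕ) (s : List ℕ) (l' : List ℕ) (s' : List ℕ) (_ : pick l s = pick l' s'),
          {e | φ (e l) s = φ (e l') s'} := by
      ext e
      simp [Coh]
    rw [this]
    exact isClosed_iInter fun l => isClosed_iInter fun s => isClosed_iInter fun l' =>
      isClosed_iInter fun s' => isClosed_iInter fun _ =>
        isClosed_eq ((hφc s).comp (continuous_apply _)) ((hφc s').comp (continuous_apply _))
  have hInv' : Inv X' := by
    rintro e ⟨he, h⟩ g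
    have h3 := Phi_rel (Psi fun l => φ (e l)) g
    rw [Phi_Psi he] at h3
    refine ⟨?_, ?_⟩
    · change (fun l : List ℕ => (fun l => φ (e l)) (l.map g)) ∈ Coh C
      rw [← h3]
      exact Phi_coh _
    · have h5 := Psi_rel (fun l => φ (e l)) g
      change Psi (fun l : List ℕ => φ (e (l.map g))) ∈ X
      rw [h5]
      exact hInv _ h g
  rcases hM C' X' ⟨F, hFc, hX'⟩ hInv' with ⟨D, hD, hD2⟩ | ⟨f, hf, hfX, hne⟩
  · left
    refine ⟨(fun e => Psi fun l => φ (e l)) '' D, hD.image _, fun c hc => ?_⟩
    have hc' : (fun l => ψ (Phi c l)) ∈ X' := by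
      simp only [X', mem_setOf_eq, h1]
      exact ⟨Phi_coh c, by rw [Psi_Phi]; exact hc⟩
    obtain ⟨d, hd, g, hg⟩ := hD2 _ hc'
    refine ⟨_, ⟨d, hd, rfl⟩, g, fun l => ?_⟩
    change Psi (fun l => φ (d l)) (l.map g) = c l
    have h3 := congrFun (Psi_rel (fun l => φ (d l)) g) l
    rw [← h3]
    have h4 : (fun l : List ℕ => φ (d (l.map g))) = Phi c := by
      funext l
      rw [hg l, h1]
    change Psi (fun l : List ℕ => φ (d (l.map g))) l = c l
    rw [h4, Psi_Phi]
  · right
    refine ⟨fun x => Psi fun l => φ (f x l), ?_, fun x => (hfX x).2, fun x y hxy h => ?_⟩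
    · refine measurable_pi_lambda _ fun l => ?_
      exact (hφm _).comp ((measurable_pi_apply l).comp hf)
    · refine hne x y hxy ?_
      obtain ⟨g, hg⟩ := h
      refine ⟨g, fun l => ?_⟩
      have h3 := Phi_rel (Psi fun l => φ (f y l)) g
      rw [Phi_Psi (hfX y).1] at h3
      have h4 : (fun l : List ℕ => (Psi fun l => φ (f y l)) (l.map g)) =
          Psi fun l => φ (f x l) := funext hg
      rw [h4, Phi_Psi (hfX x).1] at h3
      have h5 := congrArg ψ (congrFun h3 l)
      rw [h2, h2] at h5
      exact h5.symm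

theorem sigma (hM : MainStmt) : SigmaStmt := by
  intro C _ _ X hX hInv
  obtain ⟨A, hA, rfl⟩ := hX
  let := upgradeStandardBorel C
  choose s hs using fun n j => (hA n j).2
  -- the relevant lists
  let L : ℕ → ℕ → List ℕ := fun n j => (s n j).toList
  let E : ℕ → ℕ → Set (List ℕ → C) := fun n j => rho (L n j) ⁻¹' A n j
  have hE : ∀ n j, MeasurableSet (E n j) := fun n j => measurable_rho _ (hA n j).1
  have hcE : ∀ (c : Str ℕ C) n j, Phi c (L n j) ∈ E n j ↔ c ∈ A n j := fun c n j =>
    hs n j _ _ fun t ht => rho_Phi c fun x hx => Finset.mem_toList.2 (ht x hx)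
  -- a finer topology
  classical
  have hF : Measurable fun (u : List ℕ → C) (p : ℕ × ℕ) => (decide (u ∈ E p.1 p.2) : Bool) := by
    refine measurable_pi_lambda _ fun p => ?_
    refine measurable_to_bool ?_
    have : (fun u : List ℕ → C => (decide (u ∈ E p.1 p.2) : Bool)) ⁻¹' {true} = E p.1 p.2 := by
      ext u
      simp
    rw [this]
    exact hE _ _
  obtain ⟨t', hle, hcont, hpol⟩ := hF.exists_continuous
  have hbor : @BorelSpace (List ℕ → C) t' MeasurableSpace.pi := by
    constructor
    have h3 := @borel_eq_borel_of_le (List ℕ → C) t' Pi.topologicalSpace hpol inferInstance hle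
    rw [h3]
    exact (inferInstance : @BorelSpace (List ℕ → C) Pi.topologicalSpace _).measurable_eq
  refine @sigma_aux C hM _ _ _ (List ℕ → C) t' hpol MeasurableSpace.pi hbor id id (fun _ => rfl)
    (fun _ => rfl) (fun s => ?_) (fun s => measurable_pi_apply s) _ hInv L E (fun n j => ?_)
    (fun c => ?_)
  · exact @Continuous.comp _ _ _ t' Pi.topologicalSpace _ _ _ (continuous_apply s)
      (continuous_id_of_le hle)
  · have h3 : (fun u : List ℕ → C => (decide (u ∈ E n j) : Bool)) ⁻¹' {true} = E n j := by
      ext u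
      simp
    have h4 : @Continuous (List ℕ → C) Bool t' _ (fun u => (decide (u ∈ E n j) : Bool)) :=
      @Continuous.comp _ _ _ t' _ _ _ _ (continuous_apply ((n, j) : ℕ × ℕ)) hcont
    have h5 := @IsClosed.preimage _ _ t' _ _ h4 {true} (isClosed_discrete _)
    rw [h3] at h5
    exact h5
  · simp only [mem_iUnion, mem_iInter]
    exact exists_congr fun n => forall_congr' fun j => (hcE c n j).symm

end Pool.Agent.H72.UV
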