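import Pool.Agent.H72.UV.Base

/-!
Module ST2.
-/

set_option autoImplicit false

open Set Filter Topology

namespace Pool.Agent.H72.UV

open Pool.Agent.H71 (Fx orb acl orb_eq orb_symm orb_trans orb_anti)

/-- conjugated group -/
def cjg (H : Subgroup (Equiv.Perm ℕ)) (q : Equiv.Perm ℕ) : Subgroup (Equiv.Perm ℕ) :=
  H.comap (MulAut.conj q).toMonoidHom

lemma mem_cjg {H : Subgroup (Equiv.Perm ℕ)} {q g : Equiv.Perm ℕ} :
    g ∈ cjg H q ↔ q * g * q⁻¹ ∈ H := Iff.rfl

lemma orb_cjg {H : Subgroup (Equiv.Perm ℕ)} {q : Equiv.Perm ℕ} {x y : ℕ} :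
    y ∈ orb (cjg H q) ∅ x ↔ q y ∈ orb H ∅ (q x) := by
  rw [mem_orb_empty, mem_orb_empty]
  constructor
  · rintro ⟨g, hg, rfl⟩
    exact ⟨q * g * q⁻¹, hg, by simp⟩
  · rintro ⟨g, hg, h⟩
    refine ⟨q⁻¹ * g * q, ?_, ?_⟩
    · rw [mem_cjg]
      simpa [mul_assoc] using hg
    · simp [h]

lemma acl_cjg {H : Subgroup (Equiv.Perm ℕ)} {q : Equiv.Perm ℕ} {x : ℕ} :
    x ∈ acl (cjg H q) ∅ ↔ q x ∈ acl H ∅ := by
  have h : orb H ∅ (q x) = q '' orb (cjg H q) ∅ x := by
    ext z
    constructor
    · intro hz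
      refine ⟨q.symm z, ?_, by simp⟩
      rw [orb_cjg]
      simpa using hz
    · rintro ⟨y, hy, rfl⟩
      exact orb_cjg.1 hy
  change (orb (cjg H q) ∅ x).Finite ↔ (orb H ∅ (q x)).Finite
  rw [h]
  exact (Set.finite_image_iff q.injective.injOn).symm

lemma core_cjg (H : Subgroup (Equiv.Perm ℕ)) (q : Equiv.Perm ℕ) :
    core (cjg H q) = cjg (core H) q := by
  ext g
  constructor
  · rintro ⟨h1, h2⟩
    refine ⟨h1, fun a ha => ?_⟩
    have h3 : q⁻¹ a ∈ acl (cjg H q) ∅ := by
      rw [acl_cjg]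
      simpa using ha
    have := h2 _ h3
    simp only [MulEquiv.toMonoidHom_eq_coe, MonoidHom.coe_coe, MulAut.conj_apply,
      Equiv.Perm.mul_apply]
    rw [this]
    simp
  · rintro ⟨h1, h2⟩
    refine ⟨h1, fun a ha => ?_⟩
    have h3 : (q * g * q⁻¹) (q a) = q a := h2 (q a) (acl_cjg.1 ha)
    have h4 : q⁻¹ (q a) = a := by simp
    rw [Equiv.Perm.mul_apply, Equiv.Perm.mul_apply, h4] at h3
    exact q.injective h3

lemma olig_cjg {H : Subgroup (Equiv.Perm ℕ)} (hH : Olig H) (q : Equiv.Perm ℕ) :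
    Olig (cjg H q) := by
  intro n
  obtain ⟨E, hE, hE2⟩ := hH n
  refine ⟨(fun e : Fin n → ℕ => fun i => q⁻¹ (e i)) '' E, hE.image _, fun a => ?_⟩
  obtain ⟨e, he, h, hh, h2⟩ := hE2 (q ∘ a)
  refine ⟨_, ⟨e, he, rfl⟩, q⁻¹ * h * q, ?_, ?_⟩
  · rw [mem_cjg]
    simpa [mul_assoc] using hh
  · intro i
    have := h2 i
    simp only [Function.comp_apply] at this
    simp [this]

/-- the structure of a thread -/
def thr {C : Type} (c : Str ℕ C) (p : ℕ → Equiv.Perm ℕ) : Str ℕ C := fun l => c (l.map (p l.length))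

lemma map_loc {C : Type} {c : Str ℕ C} {m : ℕ} {f : ℕ → ℕ}
    (hf : Loc (core (FinAut (tr m c))) univ f) {l : List ℕ} (hl : l.length ≤ m) :
    c (l.map f) = c l := by
  obtain ⟨g, hg, hg2⟩ := hf l.toFinset (subset_univ _)
  have h1 : l.map f = l.map g := List.map_congr_left fun x hx => hg2 x (List.mem_toFinset.2 hx)
  rw [h1]
  exact (mem_finAut_tr.1 hg.1).2 l hl

lemma thr_eq (hTOWC : T_TOWC) {C : Type} {c : Str ℕ C}
    (hG : Tower fun m => core (FinAut (tr m c))) {p : ℕ → Equiv.Perm ℕ}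
    (hp : Thread (fun m => core (FinAut (tr m c))) p) {m : ℕ} {l : List ℕ} (hl : l.length ≤ m) :
    c (l.map (p m)) = thr c p l := by
  obtain ⟨-, -, -, -, hloc⟩ := hTOWC _ p hG hp
  have h1 : l.map (p m) = (l.map (p l.length)).map fun x => p m ((p l.length).symm x) := by
    rw [List.map_map]
    refine List.map_congr_left fun x _ => ?_
    simp
  rw [h1, map_loc (m := l.length) (hloc l.length m hl).2 (by simp)]
  rfl

theorem st2 (hTOW : T_TOW) (hTOWN : T_TOWN) (hTOWC : T_TOWC) (hDEC : T_DEC) (hFRAME : T_FRAME)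
    (hREAL : T_REAL) (hCNT : T_CNT) (hTAM : T_TAM) (hMATCH : T_MATCH) : T_ST2 := by
  intro C c hO hM
  have hG : Tower fun m => core (FinAut (tr m c)) := hTOWN C c hO
  obtain ⟨tow1, tow2, tow3, tow4, tow5, tow6, tow7⟩ := hTOW _ hG
  have hT := hCNT _ hG ?_
  · obtain ⟨D, hD, hD2⟩ := hT
    refine ⟨(fun p => thr c p) '' D, hD.image _, fun d hd => ?_⟩
    obtain ⟨p, hp, hpd⟩ := hFRAME C c d hO hd
    obtain ⟨p', hp'D, hp', f, hf, hf2⟩ := hD2 p hp
    refine ⟨_, ⟨p', hp'D, rfl⟩, ?_⟩
    have hbij : Function.Bijective f := by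
      rw [← Set.bijOn_univ]
      exact hf
    refine ⟨Equiv.ofBijective f hbij, fun l => ?_⟩
    have h1 : ((l.map (Equiv.ofBijective f hbij)).length) ≤ l.length := by simp
    change thr c p' (l.map (Equiv.ofBijective f hbij)) = d l
    rw [← thr_eq hTOWC hG hp' h1, ← hpd l.length l le_rfl]
    obtain ⟨g, hg, hg2⟩ := hf2 l.length l.toFinset (subset_univ _)
    have h2 : (l.map (Equiv.ofBijective f hbij)).map (p' l.length) = (l.map (p l.length)).map g := by
      rw [List.map_map, List.map_map]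
      refine List.map_congr_left fun x hx => ?_
      simp only [Function.comp_apply, Equiv.ofBijective_apply]
      exact hg2 x (List.mem_toFinset.2 hx)
    rw [h2]
    exact (mem_finAut_tr.1 hg.1).2 _ (by simp)
  · rintro ⟨p, x, hp, hx, hne⟩
    obtain ⟨q, hq, z, hz, hz2⟩ := hREAL _ hG
      (fun i m => orb (core (FinAut (tr m c))) ∅ (p (Nat.unpair i).1 m (x (Nat.unpair i).1)))
      (by
        intro i m
        refine ⟨_, ?_, rfl⟩
        obtain ⟨-, -, hacl, -, -⟩ := hTOWC _ (p (Nat.unpair i).1) hG (hp _)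
        intro h
        refine (hx (Nat.unpair i).1).1 (mem_iUnion.2 ⟨m, ?_⟩)
        rw [hacl]
        exact h)
      (by
        intro i m w hw
        obtain ⟨-, -, -, -, hloc⟩ := hTOWC _ (p (Nat.unpair i).1) hG (hp _)
        have h1 := (hloc m (m + 1) (Nat.le_succ m)).2.mem_orb
          (mem_univ (p (Nat.unpair i).1 m (x (Nat.unpair i).1)))
        rw [Equiv.symm_apply_apply] at h1
        exact orb_trans h1 (tow6 m (m + 1) _ (Nat.le_succ m) hw))
    obtain ⟨hGq, horb, hacl, hcell, hloc⟩ := hTOWC _ q hG hq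
    let y : ℕ → ℕ → ℕ := fun n k => z (Nat.pair n k)
    have hy : ∀ n k, SeqT (fun m => core (FinAut (tr m c))) (p n) q (x n) (y n k) := by
      intro n k m
      have := hz (Nat.pair n k) m
      rw [Nat.unpair_pair] at this
      exact this
    have hseq : ∀ a b, Seq (cj (fun m => core (FinAut (tr m c))) q) a b ↔
        SeqT (fun m => core (FinAut (tr m c))) q q a b := by
      intro a b
      exact forall_congr' fun m => horb m a b
    -- the structure of `q`
    have hiso : ∀ m, IsoL m (thr c q) c := fun m => ⟨q m, fun l hl => thr_eq hTOWC hG hq hl⟩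
    refine hM (thr c q) hiso ?_
    have hFA : ∀ m, FinAut (tr m (thr c q)) = cjg (FinAut (tr m c)) (q m) := by
      intro m
      ext g
      rw [mem_cjg, mem_finAut_tr, mem_finAut_tr]
      have hsupp : {x | g x ≠ x}.Finite ↔ {x | (q m * g * (q m)⁻¹) x ≠ x}.Finite := by
        have : {x | (q m * g * (q m)⁻¹) x ≠ x} = q m '' {x | g x ≠ x} := by
          ext w
          constructor
          · intro hw
            refine ⟨(q m).symm w, fun h => hw ?_, by simp⟩
            change q m (g ((q m)⁻¹ w)) = w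
            change g ((q m)⁻¹ w) = (q m)⁻¹ w at h
            rw [h]
            simp
          · rintro ⟨v, hv, rfl⟩ h
            apply hv
            have h4 : (q m)⁻¹ (q m v) = v := by simp
            rw [Equiv.Perm.mul_apply, Equiv.Perm.mul_apply, h4] at h
            exact (q m).injective h
        rw [this, Set.finite_image_iff (q m).injective.injOn]
      refine and_congr hsupp ⟨fun h l hl => ?_, fun h l hl => ?_⟩
      · have h1 := h (l.map ((q m)⁻¹ : Equiv.Perm ℕ)) (by simpa using hl)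
        rw [← thr_eq hTOWC hG hq (m := m) (by simpa using hl),
          ← thr_eq hTOWC hG hq (m := m) (by simpa using hl)] at h1
        simp only [List.map_map] at h1
        have e1 : l.map (q m * g * (q m)⁻¹ : Equiv.Perm ℕ) =
            l.map (q m ∘ (g ∘ ((q m)⁻¹ : Equiv.Perm ℕ))) := rfl
        rw [e1, h1]
        congr 1
        conv_rhs => rw [← List.map_id l]
        refine List.map_congr_left fun w _ => ?_
        simp
      · rw [← thr_eq hTOWC hG hq (m := m) (by simpa using hl), ← thr_eq hTOWC hG hq (m := m) hl]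
        have h1 := h (l.map (q m)) (by simpa using hl)
        rw [← h1]
        simp only [List.map_map]
        congr 1
        refine List.map_congr_left fun w _ => ?_
        simp
    have hO' : ∀ m, Olig (FinAut (tr m (thr c q))) := by
      intro m
      rw [hFA m]
      exact olig_cjg (hO m) _
    have hG' : cj (fun m => core (FinAut (tr m c))) q =
        fun m => core (FinAut (tr m (thr c q))) := by
      funext m
      rw [hFA m, core_cjg]
      rfl
    have hyK : ∀ n k, y n k ∉ Kinf (cj (fun m => core (FinAut (tr m c))) q) := fun n k =>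
      (hy n k).kinf hTOWC hG (hp n) hq (hx n).1
    refine hDEC C (thr c q) hO' (cj (fun m => core (FinAut (tr m c))) q) hG' (fun n => y n 0)
      ?_ ?_ y ?_ ?_
    · intro n
      refine ⟨hyK n 0, fun h => (hx n).2 ?_⟩
      exact ((hTAM _ hG (p n) q (hp n) hq).1 _ _ (hy n 0)).2 h
    · intro i j hij w hw hs
      obtain ⟨f, hf, hf2⟩ := hMATCH _ hG q (p i) hq (hp i) (y i 0) (x i) (hyK i 0) (hy i 0).symm
      refine hne i j hij (f w) (hf2.1.mapsTo hw) ?_
      exact ((hy j 0).trans ((hseq _ _).1 hs)).trans (hf2.seqT hw)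
    · intro n k
      rw [hseq]
      exact (hy n 0).symm.trans (hy n k)
    · intro n k k' hkk h
      obtain ⟨m, hm⟩ := mem_iUnion.1 h
      rw [hcell] at hm
      refine hz2 (Nat.pair n k') (Nat.pair n k) m (fun h => ?_) hm
      have := congrArg Nat.unpair h
      rw [Nat.unpair_pair, Nat.unpair_pair] at this
      exact hkk (Prod.mk.inj this).2.symm

end Pool.Agent.H72.UV
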