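import Pool.Agent.H72.UV.Asm
import Pool.Agent.H72.UV.St2
import Pool.Agent.H72.UV.M2M
import Pool.Agent.H72.UV.Sigma
import Pool.Agent.H10.UV.TK
import Pool.Agent.H18.UV.OPT
import Pool.Agent.H18.UV.SWAP
import Pool.Agent.H18.UV.U1
import Pool.Agent.H18.UV.U2
import Pool.Agent.H27.UV.ARB
import Pool.Agent.H27.UV.LIFT
import Pool.Agent.H27.UV.ROW
import Pool.Agent.H29.UV.BR
import Pool.Agent.H29.UV.FS
import Pool.Agent.H29.UV.HULL
import Pool.Agent.H29.UV.KER
import Pool.Agent.H29.UV.PM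
import Pool.Agent.H34.UV.A
import Pool.Agent.H34.UV.AR
import Pool.Agent.H34.UV.CMP
import Pool.Agent.H34.UV.OWN
import Pool.Agent.H39.UV.Lev
import Pool.Agent.H39.UV.Lift
import Pool.Agent.H46.UV.FRAME
import Pool.Agent.H46.UV.ISO
import Pool.Agent.H46.UV.REAL
import Pool.Agent.H46.UV.SUB
import Pool.Agent.H62.UV.CALC
import Pool.Agent.H62.UV.CST
import Pool.Agent.H62.UV.EXT
import Pool.Agent.H62.UV.L1
import Pool.Agent.H62.UV.RI
import Pool.Agent.H62.UV.TT
import Pool.Agent.H81.UV.Dec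
import Pool.Agent.H83.UV.Locf
import Pool.Agent.H83.UV.Out
import Pool.Agent.H83.UV.Tow
import Pool.Agent.H83.UV.Towc
import Pool.Agent.H88.UV.Cnt
import Pool.Agent.H92.UV.Core
import Pool.Agent.H94.UV.COMM
import Pool.Agent.H94.UV.EMU
import Pool.Agent.H94.UV.GEN
import Pool.Agent.H96.UV.Case1
import Pool.Agent.H96.UV.Exch
import Pool.Agent.H96.UV.Orb
import Pool.Agent.H97.UV.HYP
import Pool.Agent.H97.UV.RAM

/-!
Final assembly.
-/

set_option autoImplicit false

open Set Filter Topology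

namespace Pool.Agent.H72.UV

theorem tow_thm : T_TOW := H83.UV.TOW H92.UV.grp

theorem town_thm : T_TOWN := H83.UV.TOWN H92.UV.grp H92.UV.core_thm

theorem towc_thm : T_TOWC := H83.UV.TOWC H92.UV.grp tow_thm

theorem match_thm : T_MATCH := matchT H92.UV.grp tow_thm towc_thm

theorem kmat_thm : T_KMAT := kmat tow_thm towc_thm

theorem tam_thm : T_TAM := tam tow_thm towc_thm match_thm

theorem base_thm : T_BASE := base tow_thm tam_thm

theorem cnt_thm : T_CNT :=
  H88.UV.cnt H92.UV.grp tow_thm towc_thm match_thm kmat_thm tam_thm H92.UV.locp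

theorem dec_thm : T_DEC :=
  H81.UV.dec tow_thm town_thm match_thm tam_thm (H46.UV.SUB H92.UV.grp tow_thm H92.UV.locp)
    base_thm H46.UV.ISO

theorem frame_thm : T_FRAME := H46.UV.FRAME H92.UV.grp H92.UV.core_thm town_thm H92.UV.locp

theorem real_thm : T_REAL := H46.UV.REAL H92.UV.grp tow_thm H92.UV.cell_thm

/-- Stage 2. -/
theorem st2_thm : T_ST2 :=
  st2 tow_thm town_thm towc_thm dec_thm frame_thm real_thm cnt_thm tam_thm match_thm

theorem locf_thm : T_LOCF := H83.UV.LOCF H62.UV.tt H62.UV.cst H62.UV.ri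

theorem out_thm : T_OUT := H83.UV.OUT H62.UV.tt H62.UV.cst H62.UV.l1 H62.UV.ri

theorem cmp_thm : T_CMP := H34.UV.CMP H62.UV.calc'

theorem exch_thm : T_EXCH := H96.UV.exch H62.UV.tt H62.UV.ri H62.UV.calc' cmp_thm

theorem orb_thm : T_ORB := H96.UV.orb_thm H62.UV.ri exch_thm

theorem case1_thm : T_CASE1 :=
  H96.UV.case1 H62.UV.tt H62.UV.ri H62.UV.calc' locf_thm H97.UV.hyp

theorem fl_thm : T_FL := fl (H27.UV.row H94.UV.gen) (H27.UV.arb H94.UV.gen) H34.UV.AR

theorem opt_thm : T_OPT :=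
  H18.UV.opt H18.UV.swap (H18.UV.u1 H18.UV.swap) (H18.UV.u2 H18.UV.swap)

/-- Stage 1. -/
theorem st1_thm : T_ST1 :=
  st1 (m2m H27.UV.lift) opt_thm (H94.UV.comm H94.UV.emu) fl_thm H10.UV.TK locf_thm out_thm
    case1_thm H97.UV.hyp2 orb_thm

/-- Closed classes have countably or perfectly many isomorphism types. -/
theorem closedCase : ClosedCase :=
  asm H29.UV.pm H29.UV.ker H29.UV.br H29.UV.hull (H39.UV.lev H92.UV.grp H39.UV.emb)
    (H34.UV.A H97.UV.ram) st1_thm st2_thm

/-- `F_σ` classes have countably or perfectly many isomorphism types. -/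
theorem mainStmt : MainStmt := H29.UV.fs closedCase

/-- Countable unions of countable intersections of finitely supported Borel sets. -/
theorem sigmaStmt : SigmaStmt := sigma mainStmt

end Pool.Agent.H72.UV
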