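import Pool.Agent.H72.UV.Targets

/-!
Assembly of the closed case.
-/

set_option autoImplicit false

open Set Filter Topology

namespace Pool.Agent.H72.UV

lemma perfectly_mono {C : Type} [MeasurableSpace C] {X Y : Set (Str ℕ C)} (h : X ⊆ Y)
    (hX : Perfectly X) : Perfectly Y := by
  obtain ⟨f, h1, h2, h3⟩ := hX
  exact ⟨f, h1, fun x => h (h2 x), h3⟩

/-- a point all of whose reducts are isomorphic to those of `d` lies in the closure of the orbit -/
lemma mem_closure_of_isoL {C : Type} [TopologicalSpace C] {d d' : Str ℕ C}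
    (h : ∀ m, IsoL m d' d) : d' ∈ closure {e | Iso e d} := by
  choose g hg using h
  refine mem_closure_of_tendsto (f := fun m => (fun l : List ℕ => d (l.map (g m))))
    (b := atTop) ?_ (Eventually.of_forall fun m => ⟨g m, fun l => rfl⟩)
  rw [tendsto_pi_nhds]
  intro l
  refine tendsto_const_nhds.congr' ?_
  filter_upwards [eventually_ge_atTop l.length] with m hm
  exact (hg m l hm).symm

theorem asm : T_ASM := by
  intro hPM hKER hBR hHULL hLEV hA hST1 hST2 C _ _ _ _ X hX hInv
  by_cases hP : Perfectly X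
  · exact Or.inr hP
  left
  have hM : ∀ c ∈ X, ¬ Many c := fun c hc h => hP (hPM C X hX hInv c hc h)
  have hO : ∀ c ∈ X, ∀ m, Olig (FinAut (tr m c)) := fun c hc m =>
    hST1 ℕ C c m (hM c hc) (hA ℕ C c (hM c hc))
  have hcl : ∀ c ∈ X, closure {d | Iso d c} ⊆ X := by
    intro c hc
    refine closure_minimal ?_ hX
    rintro d ⟨g, hg⟩
    have := hInv c hc g
    have h2 : (fun l : List ℕ => c (l.map g)) = d := funext hg
    rwa [h2] at this
  refine hKER C X hX hInv hP ?_
  intro c hc
  refine hBR C _ isClosed_closure (fun h => hP (perfectly_mono (hcl c hc) h)) ?_ ?_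
  · intro m
    obtain ⟨D, hD, h⟩ := hLEV C m c (hO c hc m)
    exact ⟨D, hD, fun d hd => h d (hHULL C c (hA ℕ C c (hM c hc)) d hd)⟩
  · intro d hd
    have hd' := hcl c hc hd
    obtain ⟨D, hD, h⟩ := hST2 C d (hO d hd') (fun d' hd'' =>
      hM d' (hcl d hd' (mem_closure_of_isoL hd'')))
    exact ⟨D, hD, fun e he => h e he.2⟩

end Pool.Agent.H72.UV
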