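import Pool.Agent.H72.UV.Tam

/-!
Module BASE.
-/

set_option autoImplicit false

open Set Filter Topology

namespace Pool.Agent.H72.UV

open Pool.Agent.H71 (Fx orb acl orb_eq orb_symm orb_trans orb_anti)

/-- the constant thread -/
lemma cj_one (G : ℕ → Subgroup (Equiv.Perm ℕ)) : cj G (fun _ => 1) = G := by
  funext m
  ext g
  simp [cj]

lemma thread_one (G : ℕ → Subgroup (Equiv.Perm ℕ)) : Thread G (fun _ => 1) := by
  intro m D _
  exact ⟨1, (G m).one_mem, fun x _ => rfl⟩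

lemma seqT_one {G : ℕ → Subgroup (Equiv.Perm ℕ)} {x y : ℕ} :
    SeqT G (fun _ => 1) (fun _ => 1) x y ↔ Seq G x y := Iff.rfl

/-- MATCH inside one tower -/
lemma match_one (hMATCH : T_MATCH) {G : ℕ → Subgroup (Equiv.Perm ℕ)} (hG : Tower G) {x x' : ℕ}
    (hx : x ∉ Kinf G) (h : Seq G x x') : ∃ f : ℕ → ℕ, f x = x' ∧
      BijOn f (comp G x) (comp G x') ∧ ∀ y ∈ comp G x, Seq G y (f y) := by
  obtain ⟨f, hf, hf2⟩ := hMATCH G hG (fun _ => 1) (fun _ => 1) (thread_one G) (thread_one G) x x'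
    (by rw [cj_one]; exact hx) h
  have h2 := hf2.1
  rw [cj_one] at h2
  refine ⟨f, hf, h2, fun y hy => ?_⟩
  refine hf2.seqT ?_
  rw [cj_one]
  exact hy

lemma tam_one (hTAM : T_TAM) {G : ℕ → Subgroup (Equiv.Perm ℕ)} (hG : Tower G) :
    (∀ x x' : ℕ, Seq G x x' → (Tame G x ↔ Tame G x')) ∧
    ∀ x, Tame G x → ∃ y : ℕ → ℕ, (∀ k, Seq G x (y k)) ∧ ∀ k k', k ≠ k' → y k' ∉ comp G (y k) := by
  have h := hTAM G hG (fun _ => 1) (fun _ => 1) (thread_one G) (thread_one G)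
  rw [cj_one] at h
  exact h

lemma Seq.symm {G : ℕ → Subgroup (Equiv.Perm ℕ)} {x y : ℕ} (h : Seq G x y) : Seq G y x :=
  fun m => orb_symm (h m)

lemma Seq.trans {G : ℕ → Subgroup (Equiv.Perm ℕ)} {x y z : ℕ} (h : Seq G x y) (h' : Seq G y z) :
    Seq G x z := fun m => orb_trans (h m) (h' m)

lemma Seq.refl (G : ℕ → Subgroup (Equiv.Perm ℕ)) (x : ℕ) : Seq G x x :=
  fun _ => Pool.Agent.H71.self_mem_orb _ _ _

/-- algebraic points are determined by their strong type -/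
lemma Seq.eq_of_kinf {G : ℕ → Subgroup (Equiv.Perm ℕ)} (hG : Tower G) {x y : ℕ} (h : Seq G x y)
    (hx : x ∈ Kinf G) : y = x := by
  obtain ⟨m, hm⟩ := mem_iUnion.1 hx
  obtain ⟨g, hg, hgx⟩ := mem_orb_empty.1 (h m)
  rw [← hgx]
  exact hG.red m x hm g hg

lemma Seq.notMem_kinf {G : ℕ → Subgroup (Equiv.Perm ℕ)} (hG : Tower G) {x y : ℕ} (h : Seq G x y)
    (hx : x ∉ Kinf G) : y ∉ Kinf G := by
  intro hy
  have := h.symm.eq_of_kinf hG hy
  rw [this] at hx
  exact hx hy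

theorem base (hTOW : T_TOW) (hTAM : T_TAM) : T_BASE := by
  intro G hG B hKB hcomp htame hwild m x hx
  obtain ⟨tow1, tow2, tow3, tow4, tow5, tow6, tow7⟩ := hTOW G hG
  obtain ⟨tam1, tam2⟩ := tam_one hTAM hG
  by_contra hfin
  rw [Set.not_infinite] at hfin
  -- no tame points in the orbit
  have ha : ∀ e ∈ orb (G m) ∅ x, ¬ Tame G e := by
    intro e he hte
    obtain ⟨y, hy, hy2⟩ := tam2 e hte
    have hyB : ∀ k, y k ∈ orb (G m) ∅ x ∩ B := fun k =>
      ⟨orb_trans he (hy k m), htame _ ((tam1 e (y k) (hy k)).1 hte)⟩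
    have hinj : Function.Injective y := by
      intro k k' hkk
      by_contra hne
      refine hy2 k k' hne ?_
      rw [← hkk]
      exact (tow5 (y k) ((hy k).notMem_kinf hG hte.1)).1
    exact (Set.infinite_range_of_injective hinj).mono (range_subset_iff.2 hyB) hfin
  -- algebraic points of the orbit
  have hE : (orb (G m) ∅ x ∩ Kinf G).Finite := hfin.subset (inter_subset_inter_right _ hKB)
  -- all others are covered by the finitely many points of `B`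
  have hcov : ∀ w ∈ orb (G m) ∅ x, w ∉ Kinf G → ∃ z ∈ orb (G m) ∅ x ∩ B, Seq G w z := by
    intro w hw hwK
    obtain ⟨z, hz, hs⟩ := hwild w ⟨hwK, ha w hw⟩
    exact ⟨z, ⟨orb_trans hw (hs m), hz⟩, hs⟩
  -- a level that separates
  let Z : Set ℕ := (orb (G m) ∅ x ∩ B) \ Kinf G
  have hZ : Z.Finite := hfin.subset sdiff_subset
  have hsep : ∀ z ∈ Z, ∀ z' ∈ Z, ∃ n, ¬ Seq G z z' → z' ∉ orb (G n) ∅ z := by
    intro z _ z' _
    by_cases h : Seq G z z'
    · exact ⟨0, fun h' => absurd h h'⟩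
    · simp only [Seq, not_forall] at h
      obtain ⟨n, hn⟩ := h
      exact ⟨n, fun _ => hn⟩
  have halg : ∀ e ∈ orb (G m) ∅ x ∩ Kinf G, ∃ n, e ∈ acl (G n) ∅ := fun e he =>
    mem_iUnion.1 he.2
  choose! sp hsp using hsep
  choose! al hal using halg
  obtain ⟨N1, hN1⟩ := ((hZ.prod hZ).image (fun q : ℕ × ℕ => sp q.1 q.2)).bddAbove
  obtain ⟨N2, hN2⟩ := (hE.image al).bddAbove
  let L := max m (max N1 N2)
  have hmL : m ≤ L := le_max_left _ _
  have hspL : ∀ z ∈ Z, ∀ z' ∈ Z, z' ∈ orb (G L) ∅ z → Seq G z z' := by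
    intro z hz z' hz' h
    by_contra hne
    refine hsp z hz z' hz' hne (tow6 _ L z ?_ h)
    have : sp z z' ≤ N1 := hN1 ⟨(z, z'), ⟨hz, hz'⟩, rfl⟩
    exact this.trans ((le_max_left _ _).trans (le_max_right _ _))
  have halL : ∀ e ∈ orb (G m) ∅ x, e ∈ Kinf G → e ∈ acl (G L) ∅ := by
    intro e he heK
    refine tow2 _ L ?_ (hal e ⟨he, heK⟩)
    have : al e ≤ N2 := hN2 ⟨e, ⟨he, heK⟩, rfl⟩
    exact this.trans ((le_max_right _ _).trans (le_max_right _ _))
  -- a wild point in `B`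
  obtain ⟨w, hw, hwK⟩ : ∃ w ∈ orb (G m) ∅ x, w ∉ Kinf G := by
    by_contra h
    push Not at h
    exact tow7 m x hx (hE.subset fun w hw => ⟨hw, h w hw⟩)
  obtain ⟨z, hz, hs⟩ := hcov w hw hwK
  have hzK : z ∉ Kinf G := hs.notMem_kinf hG hwK
  have hzZ : z ∈ Z := ⟨hz, hzK⟩
  -- the orbit of `z` at level `L` is one strong type
  have key : ∀ u ∈ orb (G L) ∅ z, Seq G z u := by
    intro u hu
    have hu1 : u ∈ orb (G m) ∅ x := orb_trans hz.1 (tow6 m L z hmL hu)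
    have huK : u ∉ Kinf G := by
      intro h
      have h2 := halL u hu1 h
      obtain ⟨g, hg, hgz⟩ := mem_orb_empty.1 (orb_symm hu)
      have h3 : u = z := by
        rw [← hgz, hG.red L u h2 g hg]
      rw [← h3] at hzK
      exact hzK h
    obtain ⟨z', hz', hs'⟩ := hcov u hu1 huK
    have hz'Z : z' ∈ Z := ⟨hz', hs'.notMem_kinf hG huK⟩
    exact (hspL z hzZ z' hz'Z (orb_trans hu (hs' L))).trans hs'.symm
  refine ha z hz.1 ⟨hzK, z, (tow5 z hzK).1, L, ?_, ?_⟩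
  · intro n hn
    refine Set.Subset.antisymm (tow6 L n z hn) fun u hu => key u hu n
  · refine hfin.subset ?_
    rintro u ⟨hu, hu2⟩
    exact ⟨orb_trans hz.1 (tow6 m L z hmL hu2), hcomp z hz.2 hzK hu⟩

end Pool.Agent.H72.UV
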