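import Pool.Agent.H71.Tri

/-!
# Universal classes of countable structures: definitions

A structure on the set `A` with values in `C` is a function `List A → C` (all arities at once).
The goal: every closed (even `F_σ`) invariant set of structures on `ℕ` has countably or perfectly
many isomorphism classes.
-/

set_option autoImplicit false

open Set Filter Topology

namespace Pool.Agent.H72.UV

open Pool.Agent.H71 (Fx orb acl)

/-! ### structures -/

/-- structures on `A` with values in `C` -/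
abbrev Str (A C : Type) := List A → C

/-- the level-`m` reduct: only lists of length at most `m` are evaluated -/
def tr {A C : Type} (m : ℕ) (c : Str A C) : Str A (Option C) :=
  fun l => if l.length ≤ m then some (c l) else none

/-- `Below e c`: every finite substructure of `(A, e)` embeds into `(M, c)` -/
def Below {A M C : Type} (e : Str A C) (c : Str M C) : Prop :=
  ∀ F : Finset A, ∃ f : A → M, InjOn f F ∧ ∀ l : List A, (∀ x ∈ l, x ∈ F) → c (l.map f) = e l

/-- `f` is an isomorphism between the substructures of `(A, e)` on `S` and on `T` -/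
def IsIso {A C : Type} (e : Str A C) (f : A → A) (S T : Set A) : Prop :=
  BijOn f S T ∧ ∀ l : List A, (∀ x ∈ l, x ∈ S) → e (l.map f) = e l

/-- there is a countable structure `(A, e)` all of whose finite substructures embed into `(M, c)`,
with finitely many named elements `K`, and a measurable family of infinite substructures `B x`
such that each `B x` is isomorphic over `K` to only countably many `B y` -/
def Many {M C : Type} (c : Str M C) : Prop :=
  ∃ (A : Type) (_ : Countable A) (e : Str A C) (K : Finset A) (B : (ℕ → Bool) → Set A),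
    Below e c ∧ (∀ a, MeasurableSet {x | a ∈ B x}) ∧ (∀ x, (B x).Infinite) ∧
    (∀ x, (K : Set A) ⊆ B x) ∧
    ∀ x, {y | ∃ f : A → A, IsIso e f (B x) (B y) ∧ ∀ k ∈ K, f k = k}.Countable

/-- finitely many `n`-types for every `n` -/
def FinTp {M C : Type} (c : Str M C) : Prop :=
  ∀ n : ℕ, (range fun x : Fin n → M => fun l : List (Fin n) => c (l.map x)).Finite

/-- isomorphism of structures with universe `ℕ` -/
def Iso {C : Type} (c d : Str ℕ C) : Prop := ∃ g : Equiv.Perm ℕ, ∀ l, d (l.map g) = c l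

/-- isomorphism of the level-`m` reducts -/
def IsoL {C : Type} (m : ℕ) (c d : Str ℕ C) : Prop :=
  ∃ g : Equiv.Perm ℕ, ∀ l : List ℕ, l.length ≤ m → d (l.map g) = c l

/-- invariance under relabelling -/
def Inv {C : Type} (X : Set (Str ℕ C)) : Prop :=
  ∀ c ∈ X, ∀ g : Equiv.Perm ℕ, (fun l : List ℕ => c (l.map g)) ∈ X

/-- countably many isomorphism classes -/
def Countably {C : Type} (X : Set (Str ℕ C)) : Prop :=
  ∃ D : Set (Str ℕ C), D.Countable ∧ ∀ c ∈ X, ∃ d ∈ D, Iso c d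

/-- perfectly many isomorphism classes -/
def Perfectly {C : Type} [MeasurableSpace C] (X : Set (Str ℕ C)) : Prop :=
  ∃ f : (ℕ → Bool) → Str ℕ C, Measurable f ∧ (∀ x, f x ∈ X) ∧ ∀ x y, x ≠ y → ¬ Iso (f x) (f y)

/-! ### permutation groups -/

/-- all elements have finite support -/
def Finry {α : Type} (G : Subgroup (Equiv.Perm α)) : Prop := ∀ g ∈ G, {x | g x ≠ x}.Finite

/-- finitely many orbits on `n`-tuples for every `n` -/
def Olig {α : Type} (G : Subgroup (Equiv.Perm α)) : Prop :=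
  ∀ n : ℕ, ∃ E : Set (Fin n → α), E.Finite ∧ ∀ a : Fin n → α, ∃ e ∈ E, ∃ h ∈ G, ∀ i, h (e i) = a i

/-- automorphisms of `(A, c)` of finite support -/
def FinAut {A C : Type} (c : Str A C) : Subgroup (Equiv.Perm A) where
  carrier := {g | {x | g x ≠ x}.Finite ∧ ∀ l : List A, c (l.map g) = c l}
  mul_mem' := by
    rintro a b ⟨ha, ha'⟩ ⟨hb, hb'⟩
    refine ⟨(ha.union hb).subset ?_, ?_⟩
    · intro x hx
      by_contra h
      simp only [mem_union, mem_ofPred_eq, not_or, not_not] at h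
      apply hx
      rw [Equiv.Perm.mul_apply, h.2, h.1]
    · intro l
      have := ha' (l.map b)
      rw [List.map_map] at this
      rw [Equiv.Perm.coe_mul, this, hb']
  one_mem' := by simp
  inv_mem' := by
    rintro a ⟨ha, ha'⟩
    refine ⟨ha.subset ?_, ?_⟩
    · intro x hx h
      apply hx
      rw [Equiv.Perm.inv_eq_iff_eq, h]
    · intro l
      have := ha' (l.map (a⁻¹ : Equiv.Perm A))
      rw [List.map_map] at this
      rw [← this]
      congr 1
      rw [← Equiv.Perm.coe_mul, mul_inv_cancel]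
      simp

/-! ### ultrafilters on tuples, types -/

/-- a free ultrafilter on `ι`-tuples of distinct elements -/
def Free {ι M : Type} (U : Ultrafilter (ι → M)) : Prop :=
  (∀ i j, i ≠ j → ∀ᶠ u in (U : Filter (ι → M)), u i ≠ u j) ∧
    ∀ i y, ∀ᶠ u in (U : Filter (ι → M)), u i ≠ y

/-- the same on the coordinates in `S` -/
def FreeOn {ν M : Type} (S : Set ν) (U : Ultrafilter (ν → M)) : Prop :=
  (∀ i ∈ S, ∀ j ∈ S, i ≠ j → ∀ᶠ u in (U : Filter (ν → M)), u i ≠ u j) ∧
    ∀ i ∈ S, ∀ y, ∀ᶠ u in (U : Filter (ν → M)), u i ≠ y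

/-- iterated limits commute -/
def Comm {M C : Type} (c : Str M C) : Prop :=
  ∀ (ι κ : Type) (_ : Finite ι) (_ : Finite κ) (U : Ultrafilter (ι → M)) (V : Ultrafilter (κ → M)),
    Free U → Free V → ∀ (l : List (M ⊕ (ι ⊕ κ))) (z : C),
    (∀ᶠ u in (U : Filter (ι → M)), ∀ᶠ v in (V : Filter (κ → M)),
      c (l.map (Sum.elim id (Sum.elim u v))) = z) →
    ∀ᶠ v in (V : Filter (κ → M)), ∀ᶠ u in (U : Filter (ι → M)),
      c (l.map (Sum.elim id (Sum.elim u v))) = z

/-- the free ultrafilters `U`, `V` have the same limit type over `K` -/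
def LEq {M C ι : Type} (c : Str M C) (K : Set M) (U V : Ultrafilter (ι → M)) : Prop :=
  ∀ l : List (M ⊕ ι), (∀ y, Sum.inl y ∈ l → y ∈ K) →
    ∀ᶠ u in (U : Filter (ι → M)), ∀ᶠ v in (V : Filter (ι → M)),
      c (l.map (Sum.elim id u)) = c (l.map (Sum.elim id v))

/-- the tuples `x`, `x'` (with coordinates in `W`) have the same type over `K` and all generic
tuples -/
def TT {M C ν : Type} (c : Str M C) (K : Set M) (W : Set ν) (x x' : ν → M) : Prop :=
  ∀ (ι : Type) (_ : Finite ι) (U : Ultrafilter (ι → M)), Free U →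
    ∀ l : List (M ⊕ (ν ⊕ ι)), (∀ y, Sum.inl y ∈ l → y ∈ K) →
      (∀ i, Sum.inr (Sum.inl i) ∈ l → i ∈ W) →
      ∀ᶠ u in (U : Filter (ι → M)), c (l.map (Sum.elim id (Sum.elim x u))) =
        c (l.map (Sum.elim id (Sum.elim x' u)))

open Classical in
/-- the part `x|S` of the tuple `x` is independent from the part `x|T` -/
def Ind {M C ν : Type} (c : Str M C) (K : Set M) (x : ν → M) (S T : Set ν) : Prop :=
  ∃ U : Ultrafilter (ν → M), FreeOn S U ∧
    ∀ᶠ u in (U : Filter (ν → M)), TT c K (S ∪ T) x (S.piecewise u x)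

/-- all limit types of a given length fall into finitely many classes -/
def FinLim {M C : Type} (c : Str M C) : Prop :=
  ∀ (ι : Type) (_ : Finite ι), ¬ ∃ U : ℕ → Ultrafilter (ι → M),
    (∀ n, Free (U n)) ∧ ∀ i j, i ≠ j → ¬ LEq c univ (U i) (U j)

/-- standing hypotheses for the calculus of independence -/
structure Good {M C : Type} (m : ℕ) (c : Str M C) (K : Set M) : Prop where
  fin : (range c).Finite
  ar : ∃ v, ∀ l : List M, m < l.length → c l = v
  comm : Comm c
  finK : K.Finite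
  kd : ∀ (ι : Type) (_ : Finite ι) (U V : Ultrafilter (ι → M)), Free U → Free V →
    LEq c K U V → LEq c univ U V
  fd : ∀ (ν : Type) (_ : Finite ν), ∃ (τ : Type) (_ : Finite τ) (ι : τ → Type)
    (_ : ∀ t, Finite (ι t)) (U : ∀ t, Ultrafilter (ι t → M)) (l : ∀ t, List (M ⊕ (ν ⊕ ι t))),
    (∀ t, Free (U t)) ∧ (∀ t y, Sum.inl y ∈ l t → y ∈ K) ∧
    ∀ x x' : ν → M, (∀ t, ∀ᶠ u in (U t : Filter (ι t → M)),
      c ((l t).map (Sum.elim id (Sum.elim x u))) = c ((l t).map (Sum.elim id (Sum.elim x' u)))) →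
      TT c K univ x x'

/-! ### sequences of indiscernibles -/

/-- indices used in `l` -/
def usedIdx {κ J ι : Type} (l : List (κ ⊕ J × ι)) : Set J := {j | ∃ i, Sum.inr (j, i) ∈ l}

/-- apply `f` to the indices -/
def mapIdx {κ J J' ι : Type} (f : J → J') : κ ⊕ J × ι → κ ⊕ J' × ι := Sum.map id (Prod.map f id)

/-- invariance under strictly increasing changes of the indices -/
def OrdInv {κ J ι C : Type} [LinearOrder J] (e : Str (κ ⊕ J × ι) C) : Prop :=
  ∀ (l : List (κ ⊕ J × ι)) (f : J → J), StrictMonoOn f (usedIdx l) → e (l.map (mapIdx f)) = e l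

/-- place `P` at index `a` and `R` at index `b` -/
def place {κ J P R : Type} (a b : J) : κ ⊕ (P ⊕ R) → κ ⊕ J × (P ⊕ R)
  | Sum.inl k => Sum.inl k
  | Sum.inr (Sum.inl p) => Sum.inr (a, Sum.inl p)
  | Sum.inr (Sum.inr r) => Sum.inr (b, Sum.inr r)

/-- place the first copy of `ι` at index `a` and the second at index `b` -/
def place2 {κ J ι : Type} (a b : J) : κ ⊕ (ι ⊕ ι) → κ ⊕ J × ι
  | Sum.inl k => Sum.inl k
  | Sum.inr (Sum.inl i) => Sum.inr (a, i)
  | Sum.inr (Sum.inr i) => Sum.inr (b, i)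

/-- an order configuration of size `μ` -/
def OrdCfg {M C : Type} (c : Str M C) (μ : ℕ) : Prop :=
  ∃ (k p s : ℕ) (_ : p + s = μ) (e : Str (Fin k ⊕ ℚ × (Fin p ⊕ Fin s)) C), Below e c ∧
    OrdInv e ∧ ∃ l : List (Fin k ⊕ (Fin p ⊕ Fin s)), e (l.map (place 0 1)) ≠ e (l.map (place 1 0))

/-- `a` and `b` are adjacent with respect to `l` -/
def Adj {κ ι : Type} (l : List (κ ⊕ ℚ × ι)) (a b : ℚ) : Prop :=
  a < b ∧ ∀ j ∈ usedIdx l, j ≤ a ∨ b ≤ j

/-- substitute the tuple `u` for the tuple with index `j` -/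
def subst {M J ι : Type} [DecidableEq J] (j : J) (u : ι → M) : M ⊕ J × ι → M ⊕ J × ι
  | Sum.inl y => Sum.inl y
  | Sum.inr (j', i) => if j' = j then Sum.inl (u i) else Sum.inr (j', i)

/-! ### arrays -/

/-- universe of arrays: `k` constants, rows `n : ℕ` with a `b`-tuple and cells `(j, ·)`, `j : ℕ`,
which are `a`-tuples -/
abbrev Arr (k b a : ℕ) := Fin k ⊕ ℕ × (Fin b ⊕ ℕ × Fin a)

/-- change of the rows -/
def rowMap {k b a : ℕ} (f : ℕ → ℕ) : Arr k b a → Arr k b a := Sum.map id (Prod.map f id)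

/-- change of the cells, by the function `g n` in row `n` -/
def cellMap {k b a : ℕ} (g : ℕ → ℕ → ℕ) : Arr k b a → Arr k b a
  | Sum.inl y => Sum.inl y
  | Sum.inr (n, Sum.inl i) => Sum.inr (n, Sum.inl i)
  | Sum.inr (n, Sum.inr (j, i)) => Sum.inr (n, Sum.inr (g n j, i))

/-- arrays are invariant under injections of the rows and of the cells inside each row -/
def ArrInv {k b a : ℕ} {C : Type} (e : Str (Arr k b a) C) : Prop :=
  (∀ (l : List (Arr k b a)) (f : ℕ → ℕ), Function.Injective f → e (l.map (rowMap f)) = e l) ∧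
  ∀ (l : List (Arr k b a)) (g : ℕ → ℕ → ℕ), (∀ n, Function.Injective (g n)) →
    e (l.map (cellMap g)) = e l

/-- the `b`-tuple of row `0` and the cell `0` of row `n` -/
def own {k b a : ℕ} (n : ℕ) : Fin k ⊕ (Fin b ⊕ Fin a) → Arr k b a
  | Sum.inl y => Sum.inl y
  | Sum.inr (Sum.inl i) => Sum.inr (0, Sum.inl i)
  | Sum.inr (Sum.inr i) => Sum.inr (n, Sum.inr (0, i))

/-- an array in which cells behave differently with respect to their own row -/
def ArrCfg {M C : Type} (c : Str M C) (a : ℕ) : Prop :=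
  ∃ (k b : ℕ) (e : Str (Arr k b a) C), Below e c ∧ ArrInv e ∧
    ∃ l : List (Fin k ⊕ (Fin b ⊕ Fin a)), e (l.map (own 0)) ≠ e (l.map (own 1))

/-! ### hypergraphs -/

/-- `D` is connected by edges contained in `D` -/
def Conn {V : Type} (E : Set (Finset V)) (D : Finset V) : Prop :=
  D.Nonempty ∧ ∀ S : Set V, (∃ x ∈ D, x ∈ S) → (∃ x ∈ D, x ∉ S) →
    ∃ W ∈ E, W ⊆ D ∧ (∃ x ∈ W, x ∈ S) ∧ ∃ x ∈ W, x ∉ S

/-- indecomposable finite sets disjoint from `K` -/
def Indec {M C : Type} (c : Str M C) (K : Set M) (W : Finset M) : Prop :=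
  W.Nonempty ∧ (∀ x ∈ W, x ∉ K) ∧
    ∀ S T : Set M, S ∪ T = (W : Set M) → Disjoint S T → S.Nonempty → T.Nonempty →
      ¬ Ind c K (id : M → M) S T

/-- edges: indecomposable sets of size at most `m` -/
def Edges {M C : Type} (m : ℕ) (c : Str M C) (K : Set M) : Set (Finset M) :=
  {W | W.card ≤ m ∧ Indec c K W}

/-- same type over `K` (of the parts of `x`, `x'` with coordinates in `W`) -/
def KT {M C ν : Type} (c : Str M C) (K : Set M) (W : Set ν) (x x' : ν → M) : Prop :=
  ∀ l : List (M ⊕ ν), (∀ y, Sum.inl y ∈ l → y ∈ K) → (∀ i, Sum.inr i ∈ l → i ∈ W) →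
    c (l.map (Sum.elim id x)) = c (l.map (Sum.elim id x'))

/-- outside of `K ∪ F` all tuples of length at most `m` are generic: equality of types over `K`
implies `TT`, and finite sets are movable -/
def Outer {M C : Type} (m : ℕ) (c : Str M C) (K F : Set M) : Prop :=
  (∀ (n : ℕ) (x x' : Fin n → M), n ≤ m → Function.Injective x → Function.Injective x' →
    (∀ i, x i ∉ K ∪ F) → (∀ i, x' i ∉ K ∪ F) → KT c K univ x x' → TT c K univ x x') ∧
  ∀ S : Set M, S.Finite → S.ncard ≤ m → Disjoint S (K ∪ F) → Ind c K (id : M → M) S ∅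

/-! ### towers -/

/-- the pointwise stabiliser in `G` of the set of all points with finite orbits -/
def core (G : Subgroup (Equiv.Perm ℕ)) : Subgroup (Equiv.Perm ℕ) where
  carrier := {g | g ∈ G ∧ ∀ a ∈ acl G ∅, g a = a}
  mul_mem' := by
    rintro a b ⟨ha, ha'⟩ ⟨hb, hb'⟩
    refine ⟨G.mul_mem ha hb, fun c hc => ?_⟩
    rw [Equiv.Perm.mul_apply, hb' c hc, ha' c hc]
  one_mem' := ⟨G.one_mem, fun _ _ => rfl⟩
  inv_mem' := by
    rintro a ⟨ha, ha'⟩
    refine ⟨G.inv_mem ha, fun c hc => ?_⟩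
    rw [Equiv.Perm.inv_eq_iff_eq, ha' c hc]

/-- points with finite orbits are fixed -/
def Reduced (G : Subgroup (Equiv.Perm ℕ)) : Prop := ∀ a ∈ acl G ∅, ∀ g ∈ G, g a = a

/-- the cell of `x` -/
def cell (G : Subgroup (Equiv.Perm ℕ)) (x : ℕ) : Set ℕ := acl G {x} \ acl G ∅

/-- basic facts on acl -/
structure Cell (G : Subgroup (Equiv.Perm ℕ)) : Prop where
  fin : ∀ F : Finset ℕ, (acl G F).Finite
  dis : ∀ (F : Finset ℕ) (a : ℕ), a ∈ acl G F → a ∈ acl G ∅ ∨ ∃ b ∈ F, a ∈ acl G {b}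
  exch : ∀ a b : ℕ, a ∉ acl G ∅ → b ∈ cell G a → cell G b = cell G a
  stat : ∀ (F : Finset ℕ) (a b : ℕ), a ∉ acl G F → b ∉ acl G F → b ∈ orb G ∅ a → b ∈ orb G F a
  pts : (range (orb G ∅)).Finite

/-- decreasing sequences of oligomorphic groups of finitary permutations -/
structure Tower (G : ℕ → Subgroup (Equiv.Perm ℕ)) : Prop where
  anti : ∀ m, G (m + 1) ≤ G m
  fin : ∀ m, Finry (G m)
  olig : ∀ m, Olig (G m)
  red : ∀ m, Reduced (G m)

/-- on finite subsets of `S` the function `f` agrees with elements of `G` -/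
def Loc (G : Subgroup (Equiv.Perm ℕ)) (S : Set ℕ) (f : ℕ → ℕ) : Prop :=
  ∀ D : Finset ℕ, (D : Set ℕ) ⊆ S → ∃ g ∈ G, ∀ x ∈ D, f x = g x

/-- algebraic points -/
def Kinf (G : ℕ → Subgroup (Equiv.Perm ℕ)) : Set ℕ := ⋃ m, acl (G m) ∅

/-- the component of `x` -/
def comp (G : ℕ → Subgroup (Equiv.Perm ℕ)) (x : ℕ) : Set ℕ := ⋃ m, cell (G m) x

/-- same strong type -/
def Seq (G : ℕ → Subgroup (Equiv.Perm ℕ)) (x y : ℕ) : Prop := ∀ m, y ∈ orb (G m) ∅ x

/-- tame points: some point `y` in the component has an isolated strong type which is realised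
finitely often in the component -/
def Tame (G : ℕ → Subgroup (Equiv.Perm ℕ)) (x : ℕ) : Prop :=
  x ∉ Kinf G ∧ ∃ y ∈ comp G x, ∃ m, (∀ n, m ≤ n → orb (G n) ∅ y = orb (G m) ∅ y) ∧
    (comp G y ∩ orb (G m) ∅ y).Finite

/-- wild points -/
def Wild (G : ℕ → Subgroup (Equiv.Perm ℕ)) (x : ℕ) : Prop := x ∉ Kinf G ∧ ¬ Tame G x

/-- threads through a tower -/
def Thread (G : ℕ → Subgroup (Equiv.Perm ℕ)) (p : ℕ → Equiv.Perm ℕ) : Prop :=
  ∀ m, Loc (G m) univ fun x => p m ((p (m + 1)).symm x)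

/-- the tower conjugated by a thread -/
def cj (G : ℕ → Subgroup (Equiv.Perm ℕ)) (p : ℕ → Equiv.Perm ℕ) (m : ℕ) :
    Subgroup (Equiv.Perm ℕ) := (G m).comap (MulAut.conj (p m)).toMonoidHom

/-- the point `x` of the thread `p` and the point `x'` of the thread `p'` have the same strong
type -/
def SeqT (G : ℕ → Subgroup (Equiv.Perm ℕ)) (p p' : ℕ → Equiv.Perm ℕ) (x x' : ℕ) : Prop :=
  ∀ m, p' m x' ∈ orb (G m) ∅ (p m x)

/-- `f` is an isomorphism between the parts `S` of the thread `p` and `S'` of the thread `p'` -/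
def Mat (G : ℕ → Subgroup (Equiv.Perm ℕ)) (p p' : ℕ → Equiv.Perm ℕ) (S S' : Set ℕ)
    (f : ℕ → ℕ) : Prop :=
  BijOn f S S' ∧ ∀ (m : ℕ) (D : Finset ℕ), (D : Set ℕ) ⊆ S →
    ∃ g ∈ G m, ∀ y ∈ D, p' m (f y) = g (p m y)

end Pool.Agent.H72.UV
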