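import Pool.Agent.H72.UV.Targets
import Pool.Agent.H72.UV.Basic

/-!
Modules MATCH, KMAT, TAM.
-/

set_option autoImplicit false

open Set Filter Topology

namespace Pool.Agent.H72.UV

open Pool.Agent.H71 (Fx orb acl)

/-- Koenig's lemma for functions controlled on an increasing sequence of finite sets. -/
lemma koenig_fun (C : ℕ → Set ℕ) (hC : ∀ m, (C m).Finite) (P : ℕ → (ℕ → ℕ) → Prop)
    (hcongr : ∀ m f f', (∀ y ∈ C m, f y = f' y) → P m f → P m f')
    (hdown : ∀ m n f, m ≤ n → P n f → P m f) (hne : ∀ m, ∃ f, P m f)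
    (hfin : ∀ m, ∃ D : Set ℕ, D.Finite ∧ ∀ f, P m f → ∀ y ∈ C m, f y ∈ D) :
    ∃ f, ∀ m, P m f := by
  classical
  choose D hD hD2 using hfin
  choose g hg using hne
  -- allowed values
  let E : ℕ → Set ℕ := fun y => if h : ∃ m, y ∈ C m then D (Nat.find h) else {0}
  have hEfin : ∀ y, (E y).Finite := by
    intro y
    dsimp only [E]
    split_ifs with h
    · exact hD _
    · exact finite_singleton 0
  have hEne : ∀ y, (E y).Nonempty := by
    intro y
    dsimp only [E]
    split_ifs with h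
    · exact ⟨_, hD2 _ (g (Nat.find h)) (hg _) y (Nat.find_spec h)⟩
    · exact singleton_nonempty 0
  choose v hv using hEne
  let K : Set (ℕ → ℕ) := {f | ∀ y, f y ∈ E y}
  have hK : IsCompact K := by
    have : K = univ.pi E := by ext f; simp [K]
    rw [this]
    exact isCompact_univ_pi fun y => (hEfin y).isCompact
  let T : ℕ → Set (ℕ → ℕ) := fun m => K ∩ {f | P m f}
  have hcl : ∀ m, IsClosed {f | P m f} := by
    intro m
    rw [← isOpen_compl_iff, isOpen_iff_mem_nhds]
    intro f hf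
    have h1 : {f' : ℕ → ℕ | ∀ y ∈ C m, f' y = f y} ∈ 𝓝 f := by
      have h2 : {f' : ℕ → ℕ | ∀ y ∈ C m, f' y = f y} = (C m).pi fun y => {f y} := by
        ext f'; simp [Set.mem_pi]
      rw [h2]
      exact set_pi_mem_nhds (hC m) fun y _ => IsOpen.mem_nhds (isOpen_discrete _) rfl
    filter_upwards [h1] with f' hf' hf''
    exact hf (hcongr m f' f hf' hf'')
  have hne' : ∀ m, (T m).Nonempty := by
    intro m
    refine ⟨fun y => if y ∈ C m then g m y else v y, ?_, ?_⟩
    · intro y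
      dsimp only
      split_ifs with h
      · have hex : ∃ m, y ∈ C m := ⟨m, h⟩
        have h2 : E y = D (Nat.find hex) := dif_pos hex
        rw [h2]
        exact hD2 _ _ (hdown _ _ _ (Nat.find_min' hex h) (hg m)) y (Nat.find_spec hex)
      · exact hv y
    · refine hcongr m (g m) _ (fun y hy => ?_) (hg m)
      simp [hy]
  obtain ⟨f, hf⟩ := IsCompact.nonempty_iInter_of_sequence_nonempty_isCompact_isClosed T
    (fun m f hf => ⟨hf.1, hdown m (m + 1) f (Nat.le_succ m) hf.2⟩) hne'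
    (hK.inter_right (hcl 0)) (fun m => hK.isClosed.inter (hcl m))
  exact ⟨f, fun m => (mem_iInter.1 hf m).2⟩

/-- images of cells -/
lemma cell_apply {G : Subgroup (Equiv.Perm ℕ)} {g : Equiv.Perm ℕ} (hg : g ∈ G) {x y : ℕ} :
    g y ∈ cell G (g x) ↔ y ∈ cell G x := by
  classical
  have key : ∀ (F F' : Finset ℕ) (h : Equiv.Perm ℕ), h ∈ G → F' = F.image h → ∀ z,
      z ∈ acl G F → h z ∈ acl G F' := by
    rintro F _ h hh rfl z hz
    change (orb G (F.image h) (h z)).Finite
    refine (Set.Finite.image h hz).subset ?_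
    rintro _ ⟨k, hk, rfl⟩
    refine ⟨(h⁻¹ * k * h) z, ⟨h⁻¹ * k * h, ⟨G.mul_mem (G.mul_mem (G.inv_mem hh) hk.1) hh, ?_⟩,
      rfl⟩, by simp⟩
    intro a ha
    have := hk.2 (h a) (Finset.mem_image_of_mem _ ha)
    simp [this]
  have e1 : ∀ (h : Equiv.Perm ℕ) (z : ℕ), ({h z} : Finset ℕ) = ({z} : Finset ℕ).image h := by
    intro h z; simp
  have e0 : ∀ (h : Equiv.Perm ℕ), (∅ : Finset ℕ) = (∅ : Finset ℕ).image h := by
    intro h; simp
  constructor
  · rintro ⟨h1, h2⟩
    refine ⟨?_, fun h => h2 (key _ _ g hg (e0 g) y h)⟩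
    have := key {g x} {x} g⁻¹ (G.inv_mem hg) (by simp) (g y) h1
    simpa using this
  · rintro ⟨h1, h2⟩
    refine ⟨key _ _ g hg (e1 g x) y h1, fun h => h2 ?_⟩
    have := key ∅ ∅ g⁻¹ (G.inv_mem hg) (e0 _) (g y) h
    simpa using this

lemma Tower.cell_finite {G : ℕ → Subgroup (Equiv.Perm ℕ)} (hG : Tower G) (hGRP : T_GRP)
    (m x : ℕ) : (cell (G m) x).Finite :=
  ((hGRP (G m) (hG.fin m) (hG.olig m)).fin {x}).subset sdiff_subset

/-- `Mat` from local data: bijectivity follows from surjectivity -/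
theorem matchT (hGRP : T_GRP) (hTOW : T_TOW) (hTOWC : T_TOWC) : T_MATCH := by
  intro G hG p p' hp hp' x x' hx hs
  obtain ⟨hGp, horb, hacl, hcell, hloc⟩ := hTOWC G p hG hp
  obtain ⟨hGp', horb', hacl', hcell', hloc'⟩ := hTOWC G p' hG hp'
  obtain ⟨-, -, tow3, -, -, -, -⟩ := hTOW (cj G p) hGp
  obtain ⟨-, -, tow3', -, -, -, -⟩ := hTOW (cj G p') hGp'
  obtain ⟨anti, -, -, -, -, -, -⟩ := hTOW G hG
  have hxK : ∀ m, x ∉ acl (cj G p m) ∅ := fun m h => hx (mem_iUnion.2 ⟨m, h⟩)
  have hx'K : ∀ m, x' ∉ acl (cj G p' m) ∅ := by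
    intro m h
    rw [hacl'] at h
    apply hxK m
    rw [hacl]
    obtain ⟨g, hg, hgx⟩ := mem_orb_empty.1 (hs m)
    have h2 : g⁻¹ (p' m x') = p' m x' := hG.red m _ h _ ((G m).inv_mem hg)
    have h3 : p m x = p' m x' := by
      rw [← h2, ← hgx]
      simp
    rw [h3]
    exact h
  -- the condition of Koenig's lemma
  let Cm : ℕ → Set ℕ := fun m => cell (cj G p m) x
  have hCfin : ∀ m, (Cm m).Finite := fun m => hGp.cell_finite hGRP m x
  let P : ℕ → (ℕ → ℕ) → Prop := fun m f => ∃ u ∈ G m, u (p m x) = p' m x' ∧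
    ∀ y ∈ Cm m, p' m (f y) = u (p m y)
  have hself : ∀ m, x ∈ Cm m := fun m => ⟨Pool.Agent.H71.subset_acl _ _ (by simp), hxK m⟩
  have hdown : ∀ m n f, m ≤ n → P n f → P m f := by
    rintro m n f hmn ⟨u, hu, hux, huy⟩
    have hu' : u ∈ G m := anti m n hmn hu
    have hCmn : Cm m ⊆ Cm n := tow3 m n x hmn (hxK n)
    -- p' m ∘ f = (p' m (p' n)⁻¹) u (p n (p m)⁻¹) (p m y)
    have hL : Loc (G m) univ ((fun z => p' m ((p' n).symm z)) ∘ (u ∘ fun z => p n ((p m).symm z))) :=
      (hloc' m n hmn).1.comp ((Loc.of_mem hu' univ).comp (hloc m n hmn).2 (mapsTo_univ _ _))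
        (mapsTo_univ _ _)
    obtain ⟨g, hg, hg2⟩ := hL ((hCfin m).toFinset.image (p m)) (subset_univ _)
    have key : ∀ y ∈ Cm m, p' m (f y) = g (p m y) := by
      intro y hy
      rw [← hg2 (p m y) (Finset.mem_image_of_mem _ ((hCfin m).mem_toFinset.2 hy))]
      simp only [Function.comp_apply, Equiv.symm_apply_apply]
      rw [← huy y (hCmn hy), Equiv.symm_apply_apply]
    have hfx : f x = x' := by
      have := huy x (hself n)
      rw [hux] at this
      exact (p' n).injective this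
    refine ⟨g, hg, ?_, key⟩
    rw [← key x (hself m), hfx]
  obtain ⟨f, hf⟩ := koenig_fun Cm hCfin P (by
      rintro m f f' hff' ⟨u, hu, hux, huy⟩
      exact ⟨u, hu, hux, fun y hy => by rw [← hff' y hy, huy y hy]⟩) hdown (by
      intro m
      obtain ⟨u, hu, hux⟩ := mem_orb_empty.1 (hs m)
      exact ⟨fun y => (p' m).symm (u (p m y)), u, hu, hux, fun y _ => by simp⟩) (by
      intro m
      refine ⟨cell (cj G p' m) x', hGp'.cell_finite hGRP m x', ?_⟩
      rintro f ⟨u, hu, hux, huy⟩ y hy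
      rw [hcell', huy y hy, ← hux, cell_apply hu]
      exact (hcell m x y).1 hy)
  have hfx : f x = x' := by
    obtain ⟨u, hu, hux, huy⟩ := hf 0
    have := huy x (hself 0)
    rw [hux] at this
    exact (p' 0).injective this
  refine ⟨f, hfx, ?_, ?_⟩
  · refine ⟨?_, ?_, ?_⟩
    · intro y hy
      obtain ⟨m, hm⟩ := mem_iUnion.1 hy
      obtain ⟨u, hu, hux, huy⟩ := hf m
      refine mem_iUnion.2 ⟨m, ?_⟩
      rw [hcell', huy y hm, ← hux, cell_apply hu]
      exact (hcell m x y).1 hm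
    · intro y hy z hz hyz
      obtain ⟨m, hm⟩ := mem_iUnion.1 hy
      obtain ⟨n, hn⟩ := mem_iUnion.1 hz
      have hm' := tow3 m (max m n) x (le_max_left _ _) (hxK _) hm
      have hn' := tow3 n (max m n) x (le_max_right _ _) (hxK _) hn
      obtain ⟨u, hu, hux, huy⟩ := hf (max m n)
      have h1 := huy y hm'
      have h2 := huy z hn'
      rw [hyz, h2] at h1
      exact ((p _).injective (u.injective h1)).symm
    · intro z hz
      obtain ⟨m, hm⟩ := mem_iUnion.1 hz
      obtain ⟨u, hu, hux, huy⟩ := hf m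
      have hz' := (hcell' m x' z).1 hm
      rw [← hux] at hz'
      have h3 : u⁻¹ (p' m z) ∈ cell (G m) (p m x) := by
        rw [← cell_apply hu]
        simpa using hz'
      have h4 : (p m).symm (u⁻¹ (p' m z)) ∈ cell (cj G p m) x := by
        rw [hcell]
        simpa using h3
      refine ⟨(p m).symm (u⁻¹ (p' m z)), mem_iUnion.2 ⟨m, h4⟩, ?_⟩
      have h5 := huy _ h4
      have h6 : u (u⁻¹ (p' m z)) = p' m z := by simp
      rw [Equiv.apply_symm_apply, h6] at h5
      exact (p' m).injective h5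
  · intro m D hD
    classical
    -- a common level
    have hex : ∀ y ∈ D, ∃ n, y ∈ Cm n := fun y hy => mem_iUnion.1 (hD hy)
    choose! k hk using hex
    let n := max m (D.sup k)
    have hn : ∀ y ∈ D, y ∈ Cm n := fun y hy =>
      tow3 _ _ x ((Finset.le_sup hy).trans (le_max_right _ _)) (hxK _) (hk y hy)
    obtain ⟨u, hu, hux, huy⟩ := hf n
    have hmn : m ≤ n := le_max_left _ _
    have hu' : u ∈ G m := anti m n hmn hu
    have hL : Loc (G m) univ ((fun z => p' m ((p' n).symm z)) ∘ (u ∘ fun z => p n ((p m).symm z))) :=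
      (hloc' m n hmn).1.comp ((Loc.of_mem hu' univ).comp (hloc m n hmn).2 (mapsTo_univ _ _))
        (mapsTo_univ _ _)
    obtain ⟨g, hg, hg2⟩ := hL (D.image (p m)) (subset_univ _)
    refine ⟨g, hg, fun y hy => ?_⟩
    rw [← hg2 (p m y) (Finset.mem_image_of_mem _ hy)]
    simp only [Function.comp_apply, Equiv.symm_apply_apply]
    rw [← huy y (hn y hy), Equiv.symm_apply_apply]

/-- algebraic parts -/
theorem kmat (hTOW : T_TOW) (hTOWC : T_TOWC) : T_KMAT := by
  intro G hG p p' hp hp'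
  obtain ⟨hGp, horb, hacl, hcell, hloc⟩ := hTOWC G p hG hp
  obtain ⟨hGp', horb', hacl', hcell', hloc'⟩ := hTOWC G p' hG hp'
  obtain ⟨anti, mono, -, -, -, -, -⟩ := hTOW G hG
  classical
  have hfixp : ∀ m n y, m ≤ n → p m y ∈ acl (G m) ∅ → p n y = p m y := by
    intro m n y hmn hy
    obtain ⟨g, hg, hg2⟩ := (hloc m n hmn).2 {p m y} (subset_univ _)
    have := hg2 (p m y) (by simp)
    simp only [Equiv.symm_apply_apply] at this
    rw [this, hG.red m _ hy g hg]
  have hfixp' : ∀ m n y, m ≤ n → p' m y ∈ acl (G m) ∅ → p' n y = p' m y := by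
    intro m n y hmn hy
    obtain ⟨g, hg, hg2⟩ := (hloc' m n hmn).2 {p' m y} (subset_univ _)
    have := hg2 (p' m y) (by simp)
    simp only [Equiv.symm_apply_apply] at this
    rw [this, hG.red m _ hy g hg]
  have hex : ∀ y ∈ Kinf (cj G p), ∃ m, p m y ∈ acl (G m) ∅ := by
    intro y hy
    obtain ⟨m, hm⟩ := mem_iUnion.1 hy
    exact ⟨m, (hacl m y).1 hm⟩
  have hex' : ∀ y ∈ Kinf (cj G p'), ∃ m, p' m y ∈ acl (G m) ∅ := by
    intro y hy
    obtain ⟨m, hm⟩ := mem_iUnion.1 hy
    exact ⟨m, (hacl' m y).1 hm⟩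
  choose! k hk using hex
  choose! k' hk' using hex'
  let f : ℕ → ℕ := fun y => (p' (k y)).symm (p (k y) y)
  -- at all large levels
  have hf : ∀ y ∈ Kinf (cj G p), ∀ n, k y ≤ n → p' n (f y) = p n y := by
    intro y hy n hn
    have h1 : p' (k y) (f y) = p (k y) y := by simp [f]
    rw [hfixp' _ _ _ hn (by rw [h1]; exact hk y hy), h1, hfixp _ _ _ hn (hk y hy)]
  refine ⟨f, ⟨?_, ?_, ?_⟩, ?_⟩
  · intro y hy
    refine mem_iUnion.2 ⟨k y, ?_⟩
    rw [hacl', hf y hy _ le_rfl]
    exact hk y hy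
  · intro y hy z hz hyz
    have h1 := hf y hy (max (k y) (k z)) (le_max_left _ _)
    have h2 := hf z hz (max (k y) (k z)) (le_max_right _ _)
    rw [hyz, h2] at h1
    exact ((p _).injective h1).symm
  · intro z hz
    let y := (p (k' z)).symm (p' (k' z) z)
    have hy1 : p (k' z) y = p' (k' z) z := by simp [y]
    have hy : y ∈ Kinf (cj G p) := mem_iUnion.2 ⟨k' z, by rw [hacl, hy1]; exact hk' z hz⟩
    refine ⟨y, hy, ?_⟩
    have h1 := hf y hy (max (k y) (k' z)) (le_max_left _ _)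
    rw [hfixp _ _ y (le_max_right (k y) (k' z)) (by rw [hy1]; exact hk' z hz), hy1,
      ← hfixp' _ _ z (le_max_right (k y) (k' z)) (hk' z hz)] at h1
    exact (p' _).injective h1
  · intro m D hD
    let n := max m (D.sup k)
    have hmn : m ≤ n := le_max_left _ _
    have hn : ∀ y ∈ D, p' n (f y) = p n y := fun y hy =>
      hf y (hD hy) n ((Finset.le_sup hy).trans (le_max_right _ _))
    have hL : Loc (G m) univ ((fun z => p' m ((p' n).symm z)) ∘ (fun z => p n ((p m).symm z))) :=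
      (hloc' m n hmn).1.comp (hloc m n hmn).2 (mapsTo_univ _ _)
    obtain ⟨g, hg, hg2⟩ := hL (D.image (p m)) (subset_univ _)
    refine ⟨g, hg, fun y hy => ?_⟩
    rw [← hg2 (p m y) (Finset.mem_image_of_mem _ hy)]
    simp only [Function.comp_apply, Equiv.symm_apply_apply]
    rw [← hn y hy, Equiv.symm_apply_apply]

end Pool.Agent.H72.UV
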