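import Pool.Agent.H72.UV.Match

/-!
Module TAM.
-/

set_option autoImplicit false

open Set Filter Topology

namespace Pool.Agent.H72.UV

open Pool.Agent.H71 (Fx orb acl orb_eq orb_symm orb_trans orb_anti)

lemma orb_mono_group {G H : Subgroup (Equiv.Perm ℕ)} (h : G ≤ H) {x : ℕ} :
    orb G ∅ x ⊆ orb H ∅ x := by
  intro y hy
  obtain ⟨g, hg, rfl⟩ := mem_orb_empty.1 hy
  exact mem_orb_empty.2 ⟨g, h hg, rfl⟩

lemma SeqT.symm {G : ℕ → Subgroup (Equiv.Perm ℕ)} {p p' : ℕ → Equiv.Perm ℕ} {x x' : ℕ}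
    (h : SeqT G p p' x x') : SeqT G p' p x' x := fun m => orb_symm (h m)

lemma SeqT.trans {G : ℕ → Subgroup (Equiv.Perm ℕ)} {p p' p'' : ℕ → Equiv.Perm ℕ} {x x' x'' : ℕ}
    (h : SeqT G p p' x x') (h' : SeqT G p' p'' x' x'') : SeqT G p p'' x x'' :=
  fun m => orb_trans (h m) (h' m)

lemma SeqT.refl (G : ℕ → Subgroup (Equiv.Perm ℕ)) (p : ℕ → Equiv.Perm ℕ) (x : ℕ) :
    SeqT G p p x x := fun _ => Pool.Agent.H71.self_mem_orb _ _ _

/-- a point of the range of a `Mat` has the same strong type -/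
lemma Mat.seqT {G : ℕ → Subgroup (Equiv.Perm ℕ)} {p p' : ℕ → Equiv.Perm ℕ} {S S' : Set ℕ}
    {f : ℕ → ℕ} (h : Mat G p p' S S' f) {y : ℕ} (hy : y ∈ S) : SeqT G p p' y (f y) := by
  intro m
  obtain ⟨g, hg, hg2⟩ := h.2 m {y} (by simpa using hy)
  rw [hg2 y (by simp)]
  exact mem_orb_empty.2 ⟨g, hg, rfl⟩

/-- algebraicity depends only on the strong type -/
lemma SeqT.kinf (hTOWC : T_TOWC) {G : ℕ → Subgroup (Equiv.Perm ℕ)} (hG : Tower G)
    {p p' : ℕ → Equiv.Perm ℕ} (hp : Thread G p) (hp' : Thread G p') {x x' : ℕ}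
    (h : SeqT G p p' x x') (hx : x ∉ Kinf (cj G p)) : x' ∉ Kinf (cj G p') := by
  obtain ⟨-, -, hacl, -, -⟩ := hTOWC G p hG hp
  obtain ⟨-, -, hacl', -, -⟩ := hTOWC G p' hG hp'
  intro hx'
  obtain ⟨m, hm⟩ := mem_iUnion.1 hx'
  rw [hacl'] at hm
  refine hx (mem_iUnion.2 ⟨m, ?_⟩)
  rw [hacl]
  obtain ⟨g, hg, hgx⟩ := mem_orb_empty.1 (h m)
  have h2 : g⁻¹ (p' m x') = p' m x' := hG.red m _ hm _ ((G m).inv_mem hg)
  have h3 : p m x = p' m x' := by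
    rw [← h2, ← hgx]
    simp
  rw [h3]
  exact hm

section iso

variable {G : ℕ → Subgroup (Equiv.Perm ℕ)} {p p' : ℕ → Equiv.Perm ℕ}

/-- Claim 1 -/
lemma iso_level (hTOWC : T_TOWC) (hG : Tower G) (hp : Thread G p) {y m n : ℕ} (hmn : m ≤ n)
    (h : orb (cj G p n) ∅ y = orb (cj G p m) ∅ y) :
    orb (G n) ∅ (p n y) = orb (G m) ∅ (p m y) := by
  obtain ⟨-, horb, -, -, hloc⟩ := hTOWC G p hG hp
  ext z
  have h1 : z ∈ orb (G n) ∅ (p n y) ↔ (p n).symm z ∈ orb (cj G p n) ∅ y := by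
    rw [horb, Equiv.apply_symm_apply]
  rw [h1, h, horb]
  have h2 : p m ((p n).symm z) ∈ orb (G m) ∅ z := (hloc m n hmn).1.mem_orb (mem_univ z)
  exact ⟨fun h3 => orb_trans h3 (orb_symm h2), fun h3 => orb_trans h3 h2⟩

/-- Claim 2 -/
lemma seqT_of_level (hTOW : T_TOW) (hTOWC : T_TOWC) (hG : Tower G) (hp : Thread G p)
    (hp' : Thread G p') {y m : ℕ} (h : ∀ n, m ≤ n → orb (cj G p n) ∅ y = orb (cj G p m) ∅ y)
    {z : ℕ} (hz : p' m z ∈ orb (G m) ∅ (p m y)) : SeqT G p p' y z := by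
  obtain ⟨-, -, -, -, hloc⟩ := hTOWC G p hG hp
  obtain ⟨-, -, -, -, hloc'⟩ := hTOWC G p' hG hp'
  obtain ⟨anti, -, -, -, -, -, -⟩ := hTOW G hG
  intro n
  rcases le_total m n with hmn | hmn
  · rw [iso_level hTOWC hG hp hmn (h n hmn)]
    have h1 : p' n ((p' m).symm (p' m z)) ∈ orb (G m) ∅ (p' m z) :=
      (hloc' m n hmn).2.mem_orb (mem_univ _)
    rw [Equiv.symm_apply_apply] at h1
    exact orb_trans hz h1
  · have h1 : p' n ((p' m).symm (p' m z)) ∈ orb (G n) ∅ (p' m z) :=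
      (hloc' n m hmn).1.mem_orb (mem_univ _)
    have h2 : p n ((p m).symm (p m y)) ∈ orb (G n) ∅ (p m y) :=
      (hloc n m hmn).1.mem_orb (mem_univ _)
    rw [Equiv.symm_apply_apply] at h1 h2
    exact orb_trans (orb_symm h2) (orb_trans (orb_mono_group (anti n m hmn) hz) h1)

/-- Claim 3 -/
lemma finite_of_level (hMATCH : T_MATCH) (hTOW : T_TOW) (hTOWC : T_TOWC) (hG : Tower G)
    (hp : Thread G p) (hp' : Thread G p') {y m : ℕ} (hyK : y ∉ Kinf (cj G p))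
    (h : ∀ n, m ≤ n → orb (cj G p n) ∅ y = orb (cj G p m) ∅ y)
    (hfin : (comp (cj G p) y ∩ orb (cj G p m) ∅ y).Finite)
    {z : ℕ} (hz : p' m z ∈ orb (G m) ∅ (p m y)) :
    {w | w ∈ comp (cj G p') z ∧ p' m w ∈ orb (G m) ∅ (p m y)}.Finite := by
  obtain ⟨-, horb, -, -, -⟩ := hTOWC G p hG hp
  obtain ⟨f, hf, hf2⟩ := hMATCH G hG p p' hp hp' y z hyK
    (seqT_of_level hTOW hTOWC hG hp hp' h hz)
  refine (hfin.image f).subset ?_
  rintro w ⟨hw, hw2⟩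
  obtain ⟨v, hv, rfl⟩ := hf2.1.surjOn hw
  refine ⟨v, ⟨hv, ?_⟩, rfl⟩
  rw [horb]
  exact orb_trans hw2 (orb_symm (hf2.seqT hv m))

end iso

theorem tam (hTOW : T_TOW) (hTOWC : T_TOWC) (hMATCH : T_MATCH) : T_TAM := by
  intro G hG p p' hp hp'
  have one : ∀ (p p' : ℕ → Equiv.Perm ℕ), Thread G p → Thread G p' → ∀ x x' : ℕ,
      SeqT G p p' x x' → Tame (cj G p) x → Tame (cj G p') x' := by
    rintro p p' hp hp' x x' hs ⟨hxK, y, hy, m, h1, h2⟩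
    obtain ⟨hGp, horb, hacl, hcell, hloc⟩ := hTOWC G p hG hp
    obtain ⟨hGp', horb', hacl', hcell', hloc'⟩ := hTOWC G p' hG hp'
    obtain ⟨-, -, -, -, tow5, -, -⟩ := hTOW (cj G p) hGp
    have hyK : y ∉ Kinf (cj G p) := fun h => (tow5 x hxK).2.1.le_bot ⟨hy, h⟩
    obtain ⟨f, hf, hf2⟩ := hMATCH G hG p p' hp hp' x x' hxK hs
    have hsy : SeqT G p p' y (f y) := hf2.seqT hy
    refine ⟨hs.kinf hTOWC hG hp hp' hxK, f y, hf2.1.mapsTo hy, m, ?_, ?_⟩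
    · intro n hmn
      ext w
      rw [horb', horb', orb_eq (hsy n), orb_eq (hsy m), iso_level hTOWC hG hp hmn (h1 n hmn)]
      have h3 : p' m ((p' n).symm (p' n w)) ∈ orb (G m) ∅ (p' n w) :=
        (hloc' m n hmn).1.mem_orb (mem_univ _)
      rw [Equiv.symm_apply_apply] at h3
      exact ⟨fun h4 => orb_trans h4 h3, fun h4 => orb_trans h4 (orb_symm h3)⟩
    · refine (finite_of_level hMATCH hTOW hTOWC hG hp hp' hyK h1 h2 (hsy m)).subset ?_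
      rintro w ⟨hw, hw2⟩
      refine ⟨hw, ?_⟩
      rw [horb', orb_eq (hsy m)] at hw2
      exact hw2
  refine ⟨fun x x' hs => ⟨one p p' hp hp' x x' hs, one p' p hp' hp x' x hs.symm⟩, ?_⟩
  rintro x ⟨hxK, y, hy, m, h1, h2⟩
  obtain ⟨hGp, horb, hacl, hcell, hloc⟩ := hTOWC G p hG hp
  obtain ⟨hGp', horb', hacl', hcell', hloc'⟩ := hTOWC G p' hG hp'
  obtain ⟨-, -, -, -, tow5, -, tow7⟩ := hTOW (cj G p) hGp
  obtain ⟨-, -, -, -, tow5', -, -⟩ := hTOW (cj G p') hGp'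
  obtain ⟨-, -, -, -, -, -, tow7G⟩ := hTOW G hG
  have hyK : y ∉ Kinf (cj G p) := fun h => (tow5 x hxK).2.1.le_bot ⟨hy, h⟩
  have hoinf : {z | p' m z ∈ orb (G m) ∅ (p m y)}.Infinite := by
    have h3 : (orb (G m) ∅ (p m y)).Infinite := by
      refine tow7G m _ fun h => hyK (mem_iUnion.2 ⟨m, ?_⟩)
      rw [hacl]
      exact h
    have h4 : {z | p' m z ∈ orb (G m) ∅ (p m y)} = (p' m).symm '' (orb (G m) ∅ (p m y)) := by
      ext z
      constructor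
      · intro hz
        exact ⟨p' m z, hz, by simp⟩
      · rintro ⟨w, hw, rfl⟩
        simpa using hw
    rw [h4]
    exact h3.image (p' m).symm.injective.injOn
  have hK' : ∀ z, p' m z ∈ orb (G m) ∅ (p m y) → z ∉ Kinf (cj G p') := fun z hz =>
    (seqT_of_level hTOW hTOWC hG hp hp' h1 hz).kinf hTOWC hG hp hp' hyK
  obtain ⟨z, hz, hz2⟩ := exists_seq_of_forall_finset_exists
    (fun z => p' m z ∈ orb (G m) ∅ (p m y)) (fun z w => w ∉ comp (cj G p') z) (by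
      intro s hs
      have hfin : (⋃ z ∈ s, {w | w ∈ comp (cj G p') z ∧ p' m w ∈ orb (G m) ∅ (p m y)}).Finite :=
        s.finite_toSet.biUnion fun z hz =>
          finite_of_level hMATCH hTOW hTOWC hG hp hp' hyK h1 h2 (hs z hz)
      obtain ⟨w, hw, hw2⟩ := (hoinf.sdiff hfin).nonempty
      exact ⟨w, hw, fun z hz h => hw2 (mem_biUnion hz ⟨h, hw⟩)⟩)
  have hdist : ∀ k k', k ≠ k' → z k' ∉ comp (cj G p') (z k) := by
    intro k k' hkk h
    rcases lt_or_gt_of_ne hkk with hlt | hlt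
    · exact hz2 k k' hlt h
    · refine hz2 k' k hlt ?_
      rw [(tow5' _ (hK' _ (hz k))).2.2 _ h]
      exact (tow5' _ (hK' _ (hz k))).1
  have hxy : x ∈ comp (cj G p) y := by
    rw [(tow5 x hxK).2.2 y hy]
    exact (tow5 x hxK).1
  choose f hf hf2 using fun k => hMATCH G hG p p' hp hp' y (z k) hyK
    (seqT_of_level hTOW hTOWC hG hp hp' h1 (hz k))
  refine ⟨fun k => f k x, fun k => (hf2 k).seqT hxy, ?_⟩
  intro k k' hkk h
  have hk := (hf2 k).1.mapsTo hxy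
  have hk' := (hf2 k').1.mapsTo hxy
  rw [(tow5' _ (hK' _ (hz k))).2.2 _ hk] at h
  apply hdist k k' hkk
  rw [← (tow5' _ (hK' _ (hz k))).2.2 _ h, (tow5' _ (hK' _ (hz k'))).2.2 _ hk']
  exact (tow5' _ (hK' _ (hz k'))).1

end Pool.Agent.H72.UV
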